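import Pool.Agent.Helper3.FQ.Single
import Pool.Agent.Helper52.FQ.WDiag

/-!
# Project FQ (MP_0f6f3f_an), layer ST: the diagonality for windows from layer D

`dwin_of`: `DWin` from helper52's `diag_dl`. `th_of`: the tightness for inserted elements from `DD`.
-/

set_option autoImplicit false
set_option linter.unusedSectionVars false

open MeasureTheory Filter Topology
open scoped ENNReal

namespace Pool.Agent.Helper3.FQ

open Pool.Agent.Helper84 Pool.Agent.Helper84.GN.S3 Pool.Agent.Helper84.GN.S3.X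
open Pool.Agent.Helper84.GN hiding toReg
open Pool.Agent.Helper84.NI Pool.Agent.Helper84.GVN Pool.Agent.Helper90.RK
open Pool.Agent.Helper96.RK Pool.Agent.Helper66.FR Pool.Agent.Helper84.FR Pool.Agent.Helper55.FR
open Pool.Agent.Helper43.FQ Pool.Agent.Helper9.FQ
open Pool.Agent.Helper78.BM (FullE)
open Pool.Agent.Helper52.FQ (DD)

variable {G1 X G Λ : Type} [Group G1] [TopologicalSpace G1] [IsTopologicalGroup G1] [SecondCountableTopology G1] [LocallyCompactSpace G1]
  [MeasurableSpace G1] [BorelSpace G1] [MeasurableSpace X] [MulAction G1 X]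
  [MeasurableConstSMul G1 X] [Group G] [Group Λ] [Countable Λ] {μ : Measure X} [SMulInvariantMeasure G1 X μ]
  [IsProbabilityMeasure μ] {a : Cocy G1 X Λ} {E : Emb Λ G} {w : G1} {j : Λ →* G1} {hm : Measure G1} {σ : X → G1} {r : ℕ} {A : Gp G r}

theorem wa_eq (p q : ℕ → ℕ) (f : ℕ → ℕ → ℝ) (N : ℕ) : Pool.Agent.Helper52.FQ.Win.wa ℝ p q f N = wa p q f N := rfl

theorem dwin_of (h : DD μ a E w j hm σ) (hF : FullE E) : DWin μ a E w := fun S s _ _ hp hq =>
  Pool.Agent.Helper52.FQ.Win.diag_dl hp hq h hF S s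

theorem th_of (h : DD μ a E w j hm σ) {F : Subgroup G1} (hF : ∀ β : ℝ, 0 < β → ∃ R : ℕ, ∀ f ∈ F, mass μ a E (two A R) f < β)
    (hw : w ∈ F) (l : Λ) (ε : ℝ) (hε : 0 < ε) : ∃ R n0 : ℕ, ∀ n m : ℕ, n0 ≤ n → n0 ≤ m → th μ a E w (two A R) l n m ≤ ε :=
  th_two h.hc h.unq h.h3 hF hw h.cell l hε

end Pool.Agent.Helper3.FQ
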