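import Pool.Agent.Helper96.FR.Lat3
import Pool.Agent.Helper84.GD.Basic

/-!
# Project FQ (MP_0f6f3f_an): elements of a lattice with large gaps

`exists_near`: for a lattice `Γ` there is a compact set `K` such that every `g` is in `K Γ K⁻¹`. `exists_large`: a lattice contains elements with all gaps large.
-/

set_option autoImplicit false
set_option linter.unusedSectionVars false

open MeasureTheory Filter Topology
open scoped ENNReal

namespace Pool.Agent.Helper3.FQ


open Pool.Agent.Helper84.GDL (GD)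

variable {G : Type} [Group G] [TopologicalSpace G] [IsTopologicalGroup G] [LocallyCompactSpace G] [SecondCountableTopology G]
  {Γ : Subgroup G}

theorem exists_near (hΓ : Pool.Agent.Helper96.FR.Lattice Γ) : ∃ K : Set G, IsCompact K ∧ ∀ g : G, ∃ γ : Γ, ∃ k ∈ K, ∃ k' ∈ K, (γ : G) = k'⁻¹ * g * k := by
  obtain ⟨-, ν, h0, hfin, hinv⟩ := hΓ
  let mQ : MeasurableSpace (G ⧸ Γ) := borel (G ⧸ Γ)
  have bQ : BorelSpace (G ⧸ Γ) := ⟨rfl⟩
  let C : CompactExhaustion G := default
  let V : ℕ → Set (G ⧸ Γ) := fun n => (QuotientGroup.mk : G → G ⧸ Γ) '' interior (C n)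
  have hVo : ∀ n, IsOpen (V n) := fun n => QuotientGroup.isOpenMap_coe _ isOpen_interior
  have hVmono : Monotone V := fun n m h => Set.image_mono (interior_mono (C.subset h))
  have hVuniv : ⋃ n, V n = Set.univ := by
    rw [Set.eq_univ_iff_forall]
    intro x
    obtain ⟨g, rfl⟩ := QuotientGroup.mk_surjective x
    obtain ⟨n, hn⟩ := C.exists_mem g
    exact Set.mem_iUnion.2 ⟨n + 1, g, C.subset_interior_succ n hn, rfl⟩
  have ht : Tendsto (fun n => ν (V n)) atTop (𝓝 (ν Set.univ)) := by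
    rw [← hVuniv]
    exact tendsto_measure_iUnion_atTop hVmono
  have hhalf : ν Set.univ / 2 < ν Set.univ := ENNReal.half_lt_self h0 hfin
  obtain ⟨n, hn⟩ := (ht.eventually (lt_mem_nhds hhalf)).exists
  refine ⟨C n, C.isCompact n, fun g => ?_⟩
  have h1 : ν ((fun x => g • x) ⁻¹' V n) = ν (V n) := hinv g (V n) (hVo n).measurableSet
  have hne : ((fun x : G ⧸ Γ => g • x) ⁻¹' V n ∩ V n).Nonempty := by
    by_contra hcon
    rw [Set.not_nonempty_iff_eq_empty] at hcon
    have h2 : ν ((fun x : G ⧸ Γ => g • x) ⁻¹' V n ∪ V n) = ν (V n) + ν (V n) := by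
      rw [measure_union (Set.disjoint_iff_inter_eq_empty.2 hcon) (hVo n).measurableSet, h1]
    have h3 : ν ((fun x : G ⧸ Γ => g • x) ⁻¹' V n ∪ V n) ≤ ν Set.univ := measure_mono (Set.subset_univ _)
    rw [h2] at h3
    have h4 : ν Set.univ < ν (V n) + ν (V n) := by
      calc ν Set.univ = ν Set.univ / 2 + ν Set.univ / 2 := (ENNReal.add_halves _).symm
        _ < ν (V n) + ν (V n) := ENNReal.add_lt_add hn hn
    exact absurd h3 (not_le.2 h4)
  obtain ⟨x, hx1, k, hk, rfl⟩ := hne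
  obtain ⟨k', hk', he⟩ := hx1
  have he' : (QuotientGroup.mk k' : G ⧸ Γ) = QuotientGroup.mk (g * k) := he
  rw [QuotientGroup.eq] at he'
  refine ⟨⟨k'⁻¹ * (g * k), he'⟩, k, interior_subset hk, k', interior_subset hk', ?_⟩
  show k'⁻¹ * (g * k) = k'⁻¹ * g * k
  rw [mul_assoc]

variable {ι : Type} [Fintype ι] [DecidableEq ι]

/-- A lattice contains elements with all gaps large. -/
theorem exists_large (D : GD G ι) (hΓ : Pool.Agent.Helper96.FR.Lattice Γ) (L : ℝ) : ∃ s : Γ, ∀ i, L ≤ D.mu (s : G) i := by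
  obtain ⟨K, hK, h⟩ := exists_near hΓ
  obtain ⟨R, hR0, hR⟩ := D.mu_shift (hK.union hK.inv)
  obtain ⟨s, k, hk, k', hk', he⟩ := h (D.ea fun _ => max (L + R) 0)
  refine ⟨s, fun i => ?_⟩
  have h1 := hR k'⁻¹ (Or.inr (Set.inv_mem_inv.2 hk')) k (Or.inl hk) (D.ea fun _ => max (L + R) 0) i
  rw [← he, D.mu_ea fun _ => le_max_right _ _] at h1
  have h2 := (abs_le.1 h1).1
  have h3 := le_max_left (L + R) 0
  linarith

end Pool.Agent.Helper3.FQ
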