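import Pool.Agent.Helper3.FQ.Prod
import Pool.Agent.Helper43.FQ.Mean
import Pool.Agent.Helper9.FQ.U4

/-!
# Project FQ (MP_0f6f3f_an), layer ST: cells and components

`cl1 A i C R`: gap `i` at least `R`, the others at most `C`. `cell_near`: the cut off of a vector to `cl1 A i C R` is near its component over the stratum `A.reg (univ.erase i)`, up to the mass on `two A C`.
-/

set_option autoImplicit false
set_option linter.unusedSectionVars false

open MeasureTheory Filter Topology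

namespace Pool.Agent.Helper3.FQ

open Pool.Agent.Helper84 Pool.Agent.Helper84.GN.S3 Pool.Agent.Helper84.GN.S3.X
open Pool.Agent.Helper84.GN hiding toReg
open Pool.Agent.Helper84.NI Pool.Agent.Helper84.GVN Pool.Agent.Helper90.RK
open Pool.Agent.Helper96.RK Pool.Agent.Helper66.FR Pool.Agent.Helper84.FR Pool.Agent.Helper55.FR
open Pool.Agent.Helper43.FQ Pool.Agent.Helper9.FQ Pool.Agent.Helper43.TA Pool.Agent.Helper78.BM

section Cell

variable {X : Type} [MeasurableSpace X] {μ : Measure X} [IsProbabilityMeasure μ] {G : Type} [Group G] {r : ℕ} (A : Gp G r)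

/-- The gap `i` is at least `R`, the others are at most `C`. -/
def cl1 (i : Fin r) (C R : ℝ) : Set G := {γ | (∀ l, l ≠ i → A.gap γ l ≤ C) ∧ R ≤ A.gap γ i}

theorem ind_zero_of_disj {R : Reg G} {s t : Set G} (hs : ∀ n, s ∈ R.F n) (h : t ∩ s = ∅) {x : UE μ (L2 G)}
    (hx : x ∈ XUa μ R) : UE.map μ (ind ℂ t) x = 0 := by
  rw [← XUa_ind R hs hx, xind_ind, h, C_empty]

theorem cell_other {i : Fin r} {J : Finset (Fin r)} (h1 : J ≠ Finset.univ.erase i) (h2 : J ≠ Finset.univ) (C R : ℝ)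
    {x : UE μ (L2 G)} (hx : x ∈ XUa μ (A.reg J)) : UE.map μ (ind ℂ (cl1 A i C R)) x = 0 := by
  classical
  obtain ⟨l, hl, hlJ⟩ : ∃ l, l ≠ i ∧ l ∉ J := by
    by_contra hcon
    push Not at hcon
    have h3 : Finset.univ.erase i ⊆ J := fun l hl => hcon l (Finset.ne_of_mem_erase hl)
    by_cases hi : i ∈ J
    · refine h2 (Finset.eq_univ_of_forall fun l => ?_)
      rcases eq_or_ne l i with rfl | hl
      · exact hi
      · exact hcon l hl
    · refine h1 (Finset.Subset.antisymm (fun l hl => ?_) h3)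
      refine Finset.mem_erase.2 ⟨?_, Finset.mem_univ _⟩
      rintro rfl
      exact hi hl
  refine ind_zero_of_disj (s := A.BB J (⌈C⌉₊ + 1)) (fun n => A.BB_mem_FF J _ n) ?_ hx
  rw [Set.eq_empty_iff_forall_notMem]
  rintro γ ⟨h3, h4⟩
  have h5 := h3.1 l hl
  have h6 := h4 l hlJ
  push_cast at h6
  linarith [Nat.le_ceil C]

theorem norm_XPpr_le' (R : Reg G) (ξ : UE μ (L2 G)) : ‖((XPpr R ξ : XUa μ R) : UE μ (L2 G))‖ ≤ ‖ξ‖ := by
  have h1 := (XPpr (μ := μ) R).le_of_opNorm_le (norm_XPpr (μ := μ) R) ξ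
  rw [one_mul] at h1
  exact h1

theorem cell_near {ξ : UE μ (L2 G)} (hu : XPpr (A.reg Finset.univ) ξ = 0) (i : Fin r) (C : ℕ) (R : ℝ) :
    ‖UE.map μ (ind ℂ (cl1 A i C R)) ξ - ((XPpr (A.reg (Finset.univ.erase i)) ξ : XUa μ (A.reg (Finset.univ.erase i))) : UE μ (L2 G))‖ ≤
      ‖UE.map μ (ind ℂ (two A C)) ξ‖ := by
  classical
  set J := (Finset.univ : Finset (Fin r)).erase i with hJ
  set x : UE μ (L2 G) := ((XPpr (A.reg J) ξ : XUa μ (A.reg J)) : UE μ (L2 G)) with hx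
  have hxm : x ∈ XUa μ (A.reg J) := (XPpr (A.reg J) ξ).2
  -- only the component over `J`
  have e1 : UE.map μ (ind ℂ (cl1 A i C R)) ξ = UE.map μ (ind ℂ (cl1 A i C R)) x := by
    conv_lhs => rw [← sum_proj A ξ]
    rw [map_sum]
    refine Finset.sum_eq_single J (fun J' _ hJ' => ?_) (fun h => absurd (Finset.mem_univ _) h)
    rcases eq_or_ne J' Finset.univ with rfl | h2
    · rw [hu]
      exact map_zero _
    · exact cell_other A hJ' h2 C R (XPpr (A.reg J') ξ).2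
  -- the complement
  have e2 : UE.map μ (ind ℂ (cl1 A i C R)) x - x = -UE.map μ (ind ℂ (cl1 A i C R)ᶜ) x := by
    have h := C_add (μ := μ) (disjoint_compl_right : Disjoint (cl1 A i C R) (cl1 A i C R)ᶜ) x
    rw [Set.union_compl_self, C_univ] at h
    nth_rewrite 2 [h]
    abel
  have e3 : UE.map μ (ind ℂ (cl1 A i C R)ᶜ) x = UE.map μ (ind ℂ (cl1 A i C R)ᶜ) (UE.map μ (ind ℂ (two A C)) x) := by
    have h := C_add (μ := μ) (Set.disjoint_sdiff_inter.symm : Disjoint ((cl1 A i C R)ᶜ ∩ two A C) ((cl1 A i C R)ᶜ \ two A C)) x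
    rw [Set.inter_union_sdiff] at h
    rw [h, xind_ind]
    have h0 : UE.map μ (ind ℂ ((cl1 A i C R)ᶜ \ two A C)) x = 0 := by
      refine ind_zero_of_disj (s := A.BB J (max ⌈R⌉₊ (C + 1))) (fun n => A.BB_mem_FF J _ n) ?_ hxm
      rw [Set.eq_empty_iff_forall_notMem]
      rintro γ ⟨⟨h3, h4⟩, h5⟩
      have h6 := h5 i (Finset.notMem_erase i _)
      have h7 : R ≤ A.gap γ i := (Nat.le_ceil R).trans (le_trans (by exact_mod_cast le_max_left _ _) h6)
      have h8 : (C : ℝ) < A.gap γ i := by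
        have h9 : ((C + 1 : ℕ) : ℝ) ≤ A.gap γ i := le_trans (by exact_mod_cast le_max_right _ _) h6
        push_cast at h9
        linarith
      refine h3 ⟨fun l hl => ?_, h7⟩
      by_contra hlt
      exact h4 ⟨l, i, hl, not_le.1 hlt, h8⟩
    rw [h0, add_zero]
  rw [e1, e2, norm_neg, e3]
  refine (xnorm_ind_le _ _).trans ?_
  rw [hx, ind_XPpr]
  exact norm_XPpr_le' _ _

/-- The cut off to a subset of the cell. -/
theorem cut_near {ξ : UE μ (L2 G)} (hu : XPpr (A.reg Finset.univ) ξ = 0) (i : Fin r) (C : ℕ) (R : ℝ) (T : Set G) :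
    ‖UE.map μ (ind ℂ (cl1 A i C R ∩ T)) ξ - ((XPpr (A.reg (Finset.univ.erase i)) ξ : XUa μ (A.reg (Finset.univ.erase i))) : UE μ (L2 G))‖ ≤
      ‖UE.map μ (ind ℂ (two A C)) ξ‖ + ‖UE.map μ (ind ℂ Tᶜ) ξ‖ := by
  have h1 := cell_near A hu i C R
  have h2 : UE.map μ (ind ℂ (cl1 A i C R)) ξ - UE.map μ (ind ℂ (cl1 A i C R ∩ T)) ξ =
      UE.map μ (ind ℂ (cl1 A i C R \ (cl1 A i C R ∩ T))) ξ := C_sdiff Set.inter_subset_left ξ
  have h3 : cl1 A i C R \ (cl1 A i C R ∩ T) ⊆ Tᶜ := by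
    rintro γ ⟨h4, h5⟩ h6
    exact h5 ⟨h4, h6⟩
  have h4 := sq_mono h3 ξ
  have h5 : UE.map μ (ind ℂ (cl1 A i C R ∩ T)) ξ - ((XPpr (A.reg (Finset.univ.erase i)) ξ : XUa μ (A.reg (Finset.univ.erase i))) : UE μ (L2 G)) =
      (UE.map μ (ind ℂ (cl1 A i C R)) ξ - ((XPpr (A.reg (Finset.univ.erase i)) ξ : XUa μ (A.reg (Finset.univ.erase i))) : UE μ (L2 G))) -
        UE.map μ (ind ℂ (cl1 A i C R \ (cl1 A i C R ∩ T))) ξ := by
    rw [← h2]
    abel
  rw [h5]
  exact (norm_sub_le _ _).trans (add_le_add h1 h4)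

end Cell

section Seq

variable {G1 X G Λ : Type} [Group G1] [TopologicalSpace G1] [IsTopologicalGroup G1] [MeasurableSpace X] {μ : Measure X}
  [MulAction G1 X] [MeasurableConstSMul G1 X] [SMulInvariantMeasure G1 X μ] [IsProbabilityMeasure μ]
  [Group G] [Group Λ] [Countable Λ] {a : Cocy G1 X Λ} {E : Emb Λ G} {r : ℕ} {A : Gp G r}

/-- The norm of the cut off from the masses. -/
theorem norm_vec_le {s : Set G} {b : ℕ → G1} {β : ℝ} (hβ : 0 ≤ β)
    (h : ∀ᶠ n in (hyperfilter ℕ : Filter ℕ), mass μ a E s (b n) ≤ β ^ 2) : ‖UE.map μ (ind ℂ s) (vec μ a E b)‖ ≤ β := by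
  have h1 : ‖UE.map μ (ind ℂ s) (vec μ a E b)‖ ^ 2 ≤ β ^ 2 := le_of_tendsto (ms_tendsto (μ := μ) (a := a) (E := E) s b) h
  exact (sq_le_sq₀ (norm_nonneg _) hβ).1 h1

/-- The mass of the component does not depend on the translate. -/
theorem norm_comp_shift (R : Reg G) {g : ℕ → G1} {h : G1} (hh : ∀ n, g n * h = h * g n) :
    ‖XPpr R (vec μ a E fun n => h * g n)‖ = ‖XPpr R (vec μ a E g)‖ := by
  have h1 := mR_ltr (μ := μ) (a := a) (E := E) R hh
  rw [mR_univ', mR_univ'] at h1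
  exact (sq_eq_sq₀ (norm_nonneg _) (norm_nonneg _)).1 h1

end Seq

end Pool.Agent.Helper3.FQ
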