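import Pool.Agent.Helper35.NI.Defs
import Pool.Agent.Helper20.TB.Wd

/-!
# Project FQ (MP_0f6f3f_an), layer ST: geometry

For the data `N : ND G I` of helper35 (with `N.Geo i`): if all gaps of `s` are large, `g` has gap `i` large, the other gaps bounded, `h` has gap `j` large, the other gaps bounded, `i ≠ j`, and the right data of `g`
and the left data of `h` are not degenerate with respect to `s`, then the gaps `i` and `j` of `g s h` are large and the multiplicity of `(g, h) ↦ g s h` is bounded.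
-/

set_option autoImplicit false
set_option linter.unusedSectionVars false
set_option linter.dupNamespace false

open Matrix

namespace Pool.Agent.Helper3.FQ

open Pool.Agent.Helper20.TB Pool.Agent.Helper35.NI

section Mat

variable {m : Type} [Fintype m] [DecidableEq m]

theorem hs_mul_le (A B : Matrix m m ℝ) : hs (A * B) ≤ hs A * hs B := by
  unfold hs
  have h1 : ∀ i j, (A * B) i j ^ 2 ≤ (∑ k, A i k ^ 2) * ∑ k, B k j ^ 2 := fun i j => by
    rw [Matrix.mul_apply]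
    exact Finset.sum_mul_sq_le_sq_mul_sq _ _ _
  calc ∑ i, ∑ j, (A * B) i j ^ 2 ≤ ∑ i, ∑ j, (∑ k, A i k ^ 2) * ∑ k, B k j ^ 2 :=
        Finset.sum_le_sum fun i _ => Finset.sum_le_sum fun j _ => h1 i j
    _ = (∑ i, ∑ k, A i k ^ 2) * ∑ j, ∑ k, B k j ^ 2 := by
        rw [Finset.sum_mul_sum]
    _ = _ := by
        congr 1
        exact Finset.sum_comm

theorem hs_tr (A : Matrix m m ℝ) : hs Aᵀ = hs A := by
  unfold hs
  exact Finset.sum_comm

theorem inner_op_tr (A : Matrix m m ℝ) (x y : EuclideanSpace ℝ m) : inner ℝ (op Aᵀ x) y = inner ℝ x (op A y) := by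
  rw [← op_adj, ContinuousLinearMap.adjoint_inner_left]

theorem norm_op_le (A : Matrix m m ℝ) (x : EuclideanSpace ℝ m) : ‖op A x‖ ≤ √(hs A) * ‖x‖ := by
  refine abs_le_of_sq_le_sq' ?_ (by positivity) |>.2
  rw [mul_pow, Real.sq_sqrt (hs_nonneg A)]
  exact op_sq_le A x

theorem norm_op_perp {A : Matrix m m ℝ} {v x : EuclideanSpace ℝ m} {η : ℝ} (hη : 0 ≤ η) (hv : ‖v‖ = 1)
    (hA : (1 - η ^ 2) * hs A ≤ ‖op A v‖ ^ 2) (hx : inner ℝ v x = 0) : ‖op A x‖ ≤ η * √(hs A) * ‖x‖ := by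
  refine abs_le_of_sq_le_sq' ?_ (by positivity) |>.2
  rw [mul_pow, mul_pow, Real.sq_sqrt (hs_nonneg A)]
  have h1 := hs_perp A hv hx
  nlinarith [mul_le_mul_of_nonneg_right hA (sq_nonneg ‖x‖)]

/-- The configuration: `f` is almost the top right vector of `S`, `op S f = ‖op S f‖ e`. -/
structure Cfg (S : Matrix m m ℝ) (e f : EuclideanSpace ℝ m) (η : ℝ) : Prop where
  e1 : ‖e‖ = 1
  f1 : ‖f‖ = 1
  η0 : 0 ≤ η
  top : (1 - η ^ 2) * hs S ≤ ‖op S f‖ ^ 2
  ef : op S f = ‖op S f‖ • e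

variable {S A B : Matrix m m ℝ} {e f : EuclideanSpace ℝ m} {η κ : ℝ}

theorem Cfg.half (h : Cfg S e f η) (hη : η ≤ 1 / 2) : √(hs S) / 2 ≤ ‖op S f‖ := by
  refine abs_le_of_sq_le_sq' ?_ (norm_nonneg _) |>.2
  rw [div_pow, Real.sq_sqrt (hs_nonneg S)]
  have h1 := h.top
  have h2 := hs_nonneg S
  have h3 : η ^ 2 ≤ 1 / 4 := by nlinarith [h.η0]
  nlinarith

theorem Cfg.split (h : Cfg S e f η) (y : EuclideanSpace ℝ m) :
    ‖op S y - (inner ℝ f y * ‖op S f‖) • e‖ ≤ η * √(hs S) * ‖y‖ := by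
  set z := y - inner ℝ f y • f with hz
  have h1 : inner ℝ f z = 0 := by
    rw [hz, inner_sub_right, inner_smul_right, real_inner_self_eq_norm_sq, h.f1]
    ring
  have h2 : ‖z‖ ≤ ‖y‖ := by
    have h3 : ‖z‖ ^ 2 ≤ ‖y‖ ^ 2 := by
      have e1 : ‖z‖ ^ 2 = ‖y‖ ^ 2 - inner ℝ f y ^ 2 := by
        rw [hz, norm_sub_sq_real, inner_smul_right, norm_smul, h.f1, real_inner_comm, mul_one, Real.norm_eq_abs, sq_abs]
        ring
      rw [e1]
      nlinarith [sq_nonneg (inner ℝ f y)]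
    exact (sq_le_sq₀ (norm_nonneg _) (norm_nonneg _)).1 h3
  have h4 : op S y - (inner ℝ f y * ‖op S f‖) • e = op S z := by
    rw [hz, map_sub, map_smul, mul_smul, ← h.ef]
  rw [h4]
  refine (norm_op_perp h.η0 h.f1 h.top h1).trans ?_
  exact mul_le_mul_of_nonneg_left h2 (mul_nonneg h.η0 (Real.sqrt_nonneg _))

/-- Two factors. -/
theorem Cfg.two (h : Cfg S e f η) (hκ : 0 < κ) (hκ1 : κ ≤ 1) (hη : η ≤ κ / 4)
    (hB : κ * √(hs B) ≤ ‖op Bᵀ f‖) : κ / 4 * (√(hs S) * √(hs B)) ≤ √(hs (S * B)) := by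
  have hs0 := Real.sqrt_nonneg (hs S)
  have hb0 := Real.sqrt_nonneg (hs B)
  rcases eq_or_lt_of_le hb0 with h0 | h0
  · rw [← h0, mul_zero, mul_zero]
    exact Real.sqrt_nonneg _
  have hb : 0 < ‖op Bᵀ f‖ := lt_of_lt_of_le (mul_pos hκ h0) hB
  set v := ‖op Bᵀ f‖⁻¹ • op Bᵀ f with hv
  have hv1 : ‖v‖ = 1 := by
    rw [hv, norm_smul, norm_inv, norm_norm, inv_mul_cancel₀ hb.ne']
  have hi : inner ℝ f (op B v) = ‖op Bᵀ f‖ := by
    rw [← inner_op_tr, hv, inner_smul_right, real_inner_self_eq_norm_sq]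
    field_simp
  have h1 := h.split (op B v)
  rw [hi] at h1
  have h2 : ‖op B v‖ ≤ √(hs B) := by
    have := norm_op_le B v
    rwa [hv1, mul_one] at this
  have h3 : ‖(‖op Bᵀ f‖ * ‖op S f‖) • e‖ = ‖op Bᵀ f‖ * ‖op S f‖ := by
    rw [norm_smul, h.e1, mul_one, Real.norm_of_nonneg (by positivity)]
  have h4 := norm_sub_norm_le ((‖op Bᵀ f‖ * ‖op S f‖) • e) (op S (op B v))
  rw [h3, norm_sub_rev] at h4
  have h5 := h.half (hη.trans (by linarith))
  have h6 : ‖op S (op B v)‖ ≤ √(hs (S * B)) := by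
    have := norm_op_le (S * B) v
    rwa [hv1, mul_one, op_mul] at this
  have h7 : κ * √(hs B) * (√(hs S) / 2) ≤ ‖op Bᵀ f‖ * ‖op S f‖ := mul_le_mul hB h5 (by positivity) (norm_nonneg _)
  have h8 : η * √(hs S) * ‖op B v‖ ≤ κ / 4 * √(hs S) * √(hs B) :=
    mul_le_mul (mul_le_mul_of_nonneg_right hη hs0) h2 (norm_nonneg _) (by positivity)
  nlinarith

/-- Three factors. -/
theorem Cfg.three (h : Cfg S e f η) (hκ : 0 < κ) (hκ1 : κ ≤ 1) (hη : η ≤ κ ^ 2 / 4)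
    (hA : κ * √(hs A) ≤ ‖op A e‖) (hB : κ * √(hs B) ≤ ‖op Bᵀ f‖) :
    κ ^ 2 / 4 * (√(hs A) * √(hs S) * √(hs B)) ≤ √(hs (A * S * B)) := by
  have ha0 := Real.sqrt_nonneg (hs A)
  have hs0 := Real.sqrt_nonneg (hs S)
  have hb0 := Real.sqrt_nonneg (hs B)
  rcases eq_or_lt_of_le hb0 with h0 | h0
  · rw [← h0, mul_zero, mul_zero]
    exact Real.sqrt_nonneg _
  have hb : 0 < ‖op Bᵀ f‖ := lt_of_lt_of_le (mul_pos hκ h0) hB
  set v := ‖op Bᵀ f‖⁻¹ • op Bᵀ f with hv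
  have hv1 : ‖v‖ = 1 := by
    rw [hv, norm_smul, norm_inv, norm_norm, inv_mul_cancel₀ hb.ne']
  have hi : inner ℝ f (op B v) = ‖op Bᵀ f‖ := by
    rw [← inner_op_tr, hv, inner_smul_right, real_inner_self_eq_norm_sq]
    field_simp
  have h1 := h.split (op B v)
  rw [hi] at h1
  have h2 : ‖op B v‖ ≤ √(hs B) := by
    have := norm_op_le B v
    rwa [hv1, mul_one] at this
  have h3 : ‖op A ((‖op Bᵀ f‖ * ‖op S f‖) • e)‖ = ‖op Bᵀ f‖ * ‖op S f‖ * ‖op A e‖ := by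
    rw [map_smul, norm_smul, Real.norm_of_nonneg (by positivity)]
  have h4 := norm_sub_norm_le (op A ((‖op Bᵀ f‖ * ‖op S f‖) • e)) (op A (op S (op B v)))
  rw [h3, norm_sub_rev, ← map_sub] at h4
  have h9 : ‖op A (op S (op B v) - (‖op Bᵀ f‖ * ‖op S f‖) • e)‖ ≤ √(hs A) * (η * √(hs S) * ‖op B v‖) :=
    (norm_op_le A _).trans (mul_le_mul_of_nonneg_left h1 ha0)
  have hκ2 : κ ^ 2 ≤ 1 := pow_le_one₀ hκ.le hκ1
  have h5 := h.half (hη.trans (by linarith))
  have h6 : ‖op A (op S (op B v))‖ ≤ √(hs (A * S * B)) := by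
    have := norm_op_le (A * S * B) v
    rwa [hv1, mul_one, op_mul, op_mul] at this
  have h7 : κ * √(hs B) * (√(hs S) / 2) * (κ * √(hs A)) ≤ ‖op Bᵀ f‖ * ‖op S f‖ * ‖op A e‖ :=
    mul_le_mul (mul_le_mul hB h5 (by positivity) (norm_nonneg _)) hA (by positivity) (by positivity)
  have h8 : √(hs A) * (η * √(hs S) * ‖op B v‖) ≤ √(hs A) * (κ ^ 2 / 4 * √(hs S) * √(hs B)) :=
    mul_le_mul_of_nonneg_left (mul_le_mul (mul_le_mul_of_nonneg_right hη hs0) h2 (norm_nonneg _) (by positivity)) ha0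
  nlinarith

/-- The left data of the product. -/
theorem Cfg.left (h : Cfg S e f η) {x : EuclideanSpace ℝ m} (hx1 : ‖x‖ = 1) (hx : inner ℝ e x = 0) :
    ‖op (S * B)ᵀ x‖ ≤ η * (√(hs S) * √(hs B)) := by
  have h1 : ‖op S f‖ ≤ ‖op Sᵀ e‖ := by
    have h2 : inner ℝ (op Sᵀ e) f = ‖op S f‖ := by
      rw [inner_op_tr, h.ef, inner_smul_right, real_inner_self_eq_norm_sq, h.e1, norm_smul, h.e1, norm_norm]
      ring
    have h3 := real_inner_le_norm (op Sᵀ e) f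
    rwa [h2, h.f1, mul_one] at h3
  have h4 : (1 - η ^ 2) * hs Sᵀ ≤ ‖op Sᵀ e‖ ^ 2 := by
    rw [hs_tr]
    exact h.top.trans (pow_le_pow_left₀ (norm_nonneg _) h1 2)
  have h5 := norm_op_perp h.η0 h.e1 h4 hx
  rw [hs_tr, hx1, mul_one] at h5
  rw [Matrix.transpose_mul, op_mul]
  refine (norm_op_le Bᵀ _).trans ?_
  rw [hs_tr]
  calc √(hs B) * ‖op Sᵀ x‖ ≤ √(hs B) * (η * √(hs S)) := mul_le_mul_of_nonneg_left h5 (Real.sqrt_nonneg _)
    _ = _ := by ring

end Mat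

section Gm

variable {n : ℕ}

/-- The quadratic form of the Gram matrix. -/
theorem norm_op_gram (A : Matrix (Fin n) (Fin n) ℝ) (v : EuclideanSpace ℝ (Fin n)) :
    ‖op A v‖ ^ 2 = ∑ a, ∑ b, v a * v b * (Aᵀ * A) a b := by
  have h1 : ‖op A v‖ ^ 2 = inner ℝ v (op (Aᵀ * A) v) := by
    rw [op_mul, ← inner_op_tr, Matrix.transpose_transpose, real_inner_self_eq_norm_sq]
  rw [h1, PiLp.inner_apply]
  refine Finset.sum_congr rfl fun a _ => ?_
  rw [op_apply]
  simp only [RCLike.inner_apply, conj_trivial, Finset.sum_mul]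
  refine Finset.sum_congr rfl fun b _ => ?_
  ring

theorem gram_near {A : Matrix (Fin n) (Fin n) ℝ} (hA : 0 < hs A) {x v : EuclideanSpace ℝ (Fin n)} {δ : ℝ}
    (h : ∀ a b, |gm A a b - x a * x b| ≤ δ) (hv : ‖v‖ = 1) : |‖op A v‖ ^ 2 / hs A - inner ℝ x v ^ 2| ≤ n * δ := by
  have h1 : ‖op A v‖ ^ 2 / hs A = ∑ a, ∑ b, v a * v b * gm A a b := by
    rw [norm_op_gram, Finset.sum_div]
    refine Finset.sum_congr rfl fun a _ => ?_
    rw [Finset.sum_div]
    refine Finset.sum_congr rfl fun b _ => ?_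
    unfold gm
    rw [Matrix.smul_apply, smul_eq_mul]
    field_simp
  have h2 : inner ℝ x v ^ 2 = ∑ a, ∑ b, v a * v b * (x a * x b) := by
    rw [PiLp.inner_apply, sq, Finset.sum_mul_sum]
    refine Finset.sum_congr rfl fun a _ => Finset.sum_congr rfl fun b _ => ?_
    simp only [RCLike.inner_apply, conj_trivial]
    ring
  have h3 : ‖op A v‖ ^ 2 / hs A - inner ℝ x v ^ 2 = ∑ a, ∑ b, v a * v b * (gm A a b - x a * x b) := by
    rw [h1, h2, ← Finset.sum_sub_distrib]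
    refine Finset.sum_congr rfl fun a _ => ?_
    rw [← Finset.sum_sub_distrib]
    exact Finset.sum_congr rfl fun b _ => by ring
  rw [h3]
  have hδ : 0 ≤ δ ∨ n = 0 := by
    rcases Nat.eq_zero_or_pos n with h0 | h0
    · exact Or.inr h0
    · exact Or.inl ((abs_nonneg _).trans (h ⟨0, h0⟩ ⟨0, h0⟩))
  rcases hδ with hδ | h0
  · have h4 : |∑ a, ∑ b, v a * v b * (gm A a b - x a * x b)| ≤ ∑ a, ∑ b, |v a| * |v b| * δ := by
      refine (Finset.abs_sum_le_sum_abs _ _).trans (Finset.sum_le_sum fun a _ => ?_)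
      refine (Finset.abs_sum_le_sum_abs _ _).trans (Finset.sum_le_sum fun b _ => ?_)
      rw [abs_mul, abs_mul]
      exact mul_le_mul_of_nonneg_left (h a b) (by positivity)
    refine h4.trans ?_
    have h5 : ∑ a, ∑ b, |v a| * |v b| * δ = (∑ a, |v a|) ^ 2 * δ := by
      rw [sq, Finset.sum_mul_sum, Finset.sum_mul]
      refine Finset.sum_congr rfl fun a _ => ?_
      rw [Finset.sum_mul]
    rw [h5]
    refine mul_le_mul_of_nonneg_right ?_ hδ
    have h6 := sq_sum_le_card_mul_sum_sq (s := (Finset.univ : Finset (Fin n))) (f := fun a => |v a|)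
    rw [Finset.card_univ, Fintype.card_fin] at h6
    refine h6.trans (le_of_eq ?_)
    have h7 : ∑ a, |v a| ^ 2 = 1 := by
      have h8 := EuclideanSpace.real_norm_sq_eq v
      rw [hv, one_pow] at h8
      rw [h8]
      exact Finset.sum_congr rfl fun a _ => sq_abs _
    rw [h7, mul_one]
  · subst h0
    simp

end Gm

end Pool.Agent.Helper3.FQ
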