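import Pool.Agent.Helper3.FQ.Geo

/-!
# Project FQ (MP_0f6f3f_an), layer ST: geometry, final statement

`geo_st`: if all gaps of `s` are large then the sets `SA i C κ R e` and `SB j C κ R f` (`i ≠ j`) have the properties which are needed in the product inequality.
-/

set_option autoImplicit false
set_option linter.unusedSectionVars false
set_option linter.dupNamespace false

open Matrix Filter Topology

namespace Pool.Agent.Helper3.FQ

open Pool.Agent.Helper20.TB Pool.Agent.Helper35.NI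

variable {G : Type} [Group G] {r : ℕ} (N : ND G (Fin r))

/-- The left factors. -/
def SA (i : Fin r) (C κ R : ℝ) (e : ∀ l, EuclideanSpace ℝ (Fin (N.n l))) : Set G :=
  {g | (∀ l, l ≠ i → N.gap g l ≤ C) ∧ R ≤ N.gap g i ∧ ∀ l, κ * √(hs (N.r l g)) ≤ ‖op (N.r l g) (e l)‖}

/-- The right factors. -/
def SB (j : Fin r) (C κ R : ℝ) (f : ∀ l, EuclideanSpace ℝ (Fin (N.n l))) : Set G :=
  {h | (∀ l, l ≠ j → N.gap h l ≤ C) ∧ R ≤ N.gap h j ∧ ∀ l, κ * √(hs (N.r l h)) ≤ ‖op (N.r l h)ᵀ (f l)‖}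

theorem hs_pos (l : Fin r) (g : G) : 0 < hs (N.r l g) := by
  rcases eq_or_lt_of_le (hs_nonneg (N.r l g)) with h0 | h0
  · exfalso
    have h1 : ∀ v, op (N.r l g) v = 0 := fun v => by
      have h2 := op_sq_le (N.r l g) v
      rw [← h0, zero_mul] at h2
      have h3 : ‖op (N.r l g) v‖ ^ 2 = 0 := le_antisymm h2 (sq_nonneg _)
      exact norm_eq_zero.1 (pow_eq_zero_iff two_ne_zero |>.1 h3)
    have h4 : op (N.r l g⁻¹ * N.r l g) (N.xR l g) = N.xR l g := by
      rw [← map_mul, inv_mul_cancel, map_one, op_one]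
    rw [op_mul, h1, map_zero] at h4
    have h5 := N.uR l g
    rw [← h4, norm_zero] at h5
    exact zero_ne_one h5
  · exact h0

/-- The sum of the coefficients. -/
noncomputable def coQ : ℝ := ∑ l, ∑ m, |N.co l m|

theorem coQ_nonneg : 0 ≤ coQ N := Finset.sum_nonneg fun _ _ => Finset.sum_nonneg fun _ _ => abs_nonneg _

theorem lin_le {y : Fin r → ℝ} {D : ℝ} (hD : 0 ≤ D) (h : ∀ m, |y m| ≤ D) (l : Fin r) : |∑ m, N.co l m * y m| ≤ coQ N * D := by
  have h1 : |∑ m, N.co l m * y m| ≤ (∑ m, |N.co l m|) * D := by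
    refine (Finset.abs_sum_le_sum_abs _ _).trans ?_
    rw [Finset.sum_mul]
    refine Finset.sum_le_sum fun m _ => ?_
    rw [abs_mul]
    exact mul_le_mul_of_nonneg_left (h m) (abs_nonneg _)
  refine h1.trans (mul_le_mul_of_nonneg_right ?_ hD)
  exact Finset.single_le_sum (f := fun l => ∑ m, |N.co l m|) (fun _ _ => Finset.sum_nonneg fun _ _ => abs_nonneg _) (Finset.mem_univ l)

/-- Additivity of the gaps, two factors. -/
theorem gap_two {g h : G} {D : ℝ} (hD : 0 ≤ D)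
    (H : ∀ m, |Real.log (hs (N.r m (g * h))) - Real.log (hs (N.r m g)) - Real.log (hs (N.r m h))| ≤ D) (l : Fin r) :
    |N.gap (g * h) l - N.gap g l - N.gap h l| ≤ 3 * N.C0 + coQ N * D := by
  have h1 := N.size (g * h) l
  have h2 := N.size g l
  have h3 := N.size h l
  have h4 := lin_le N hD H l
  simp only [mul_sub, Finset.sum_sub_distrib] at h4
  rw [abs_le] at h1 h2 h3 h4 ⊢
  constructor <;> linarith [h1.1, h1.2, h2.1, h2.2, h3.1, h3.2, h4.1, h4.2]

/-- Additivity of the gaps, three factors. -/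
theorem gap_three {g s h : G} {D : ℝ} (hD : 0 ≤ D)
    (H : ∀ m, |Real.log (hs (N.r m (g * s * h))) - Real.log (hs (N.r m g)) - Real.log (hs (N.r m s)) - Real.log (hs (N.r m h))| ≤ D)
    (l : Fin r) : |N.gap (g * s * h) l - N.gap g l - N.gap s l - N.gap h l| ≤ 4 * N.C0 + coQ N * D := by
  have h1 := N.size (g * s * h) l
  have h2 := N.size g l
  have h3 := N.size h l
  have h5 := N.size s l
  have h4 := lin_le N hD H l
  simp only [mul_sub, Finset.sum_sub_distrib] at h4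
  rw [abs_le] at h1 h2 h3 h4 h5 ⊢
  constructor <;> linarith [h1.1, h1.2, h2.1, h2.2, h3.1, h3.2, h4.1, h4.2, h5.1, h5.2]

/-- Logarithms of products of norms. -/
theorem log_two {x y z c : ℝ} (hx : 0 < x) (hy : 0 < y) (hz : 0 < z) (hc : 0 < c) (hc1 : c ≤ 1)
    (h1 : c * (√y * √z) ≤ √x) (h2 : x ≤ y * z) : |Real.log x - Real.log y - Real.log z| ≤ 2 * Real.log c⁻¹ := by
  have h3 : c ^ 2 * (y * z) ≤ x := by
    have h4 := pow_le_pow_left₀ (by positivity) h1 2
    rw [mul_pow, mul_pow, Real.sq_sqrt hx.le, Real.sq_sqrt hy.le, Real.sq_sqrt hz.le] at h4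
    exact h4
  have h5 := Real.log_le_log (by positivity) h3
  have h6 := Real.log_le_log hx h2
  rw [Real.log_mul (by positivity) (by positivity), Real.log_mul hy.ne' hz.ne', Real.log_pow] at h5
  rw [Real.log_mul hy.ne' hz.ne'] at h6
  have h7 : 0 ≤ Real.log c⁻¹ := Real.log_nonneg ((one_le_inv₀ hc).2 hc1)
  have h8 : Real.log c⁻¹ = -Real.log c := Real.log_inv c
  rw [abs_le]
  push_cast at h5
  constructor <;> linarith

theorem log_three {x y z t c : ℝ} (hx : 0 < x) (hy : 0 < y) (hz : 0 < z) (ht : 0 < t) (hc : 0 < c) (hc1 : c ≤ 1)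
    (h1 : c * (√y * √z * √t) ≤ √x) (h2 : x ≤ y * z * t) :
    |Real.log x - Real.log y - Real.log z - Real.log t| ≤ 2 * Real.log c⁻¹ := by
  have h3 : c ^ 2 * (y * z * t) ≤ x := by
    have h4 := pow_le_pow_left₀ (by positivity) h1 2
    rw [mul_pow, mul_pow, mul_pow, Real.sq_sqrt hx.le, Real.sq_sqrt hy.le, Real.sq_sqrt hz.le, Real.sq_sqrt ht.le] at h4
    exact h4
  have h5 := Real.log_le_log (by positivity) h3
  have h6 := Real.log_le_log hx h2
  rw [Real.log_mul (by positivity) (by positivity), Real.log_mul (by positivity) ht.ne', Real.log_mul hy.ne' hz.ne', Real.log_pow] at h5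
  rw [Real.log_mul (by positivity) ht.ne', Real.log_mul hy.ne' hz.ne'] at h6
  have h7 : 0 ≤ Real.log c⁻¹ := Real.log_nonneg ((one_le_inv₀ hc).2 hc1)
  have h8 : Real.log c⁻¹ = -Real.log c := Real.log_inv c
  rw [abs_le]
  push_cast at h5
  constructor <;> linarith

/-- The error terms are small for large gaps. -/
theorem exists_small {ε : ℝ} (hε : 0 < ε) : ∃ L : ℝ, 0 ≤ L ∧ ∀ x, L ≤ x → ∀ l, (N.n l : ℝ) * (N.C0 * Real.exp (-x)) ≤ ε := by
  have hC0 : 0 ≤ N.C0 := zero_le_one.trans N.one_le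
  set K : ℝ := (∑ l, (N.n l : ℝ)) * N.C0 with hK
  have hK0 : 0 ≤ K := mul_nonneg (Finset.sum_nonneg fun _ _ => Nat.cast_nonneg _) hC0
  have h1 : Tendsto (fun x : ℝ => K * Real.exp (-x)) atTop (𝓝 0) := by
    have h := Real.tendsto_exp_neg_atTop_nhds_zero.const_mul K
    rwa [mul_zero] at h
  obtain ⟨L, hL⟩ := eventually_atTop.1 (h1.eventually (gt_mem_nhds hε))
  refine ⟨max L 0, le_max_right _ _, fun x hx l => ?_⟩
  refine le_trans ?_ (hL x ((le_max_left _ _).trans hx)).le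
  rw [hK, mul_assoc]
  refine mul_le_mul_of_nonneg_right ?_ (by positivity)
  exact Finset.single_le_sum (f := fun l => (N.n l : ℝ)) (fun _ _ => Nat.cast_nonneg _) (Finset.mem_univ l)

/-- The configuration of an element with large gaps. -/
theorem exists_cfg {η : ℝ} (hη : 0 < η) : ∃ L : ℝ, 0 ≤ L ∧ ∀ s : G, (∀ l, L ≤ N.gap s l) →
    ∃ e f : ∀ l, EuclideanSpace ℝ (Fin (N.n l)), ∀ l, Cfg (N.r l s) (e l) (f l) η := by
  obtain ⟨L, hL0, hL⟩ := exists_small N (ε := min (η ^ 2) (1 / 2)) (by positivity)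
  refine ⟨L, hL0, fun s hsL => ⟨fun l => ‖op (N.r l s) (N.xR l s)‖⁻¹ • op (N.r l s) (N.xR l s), fun l => N.xR l s, fun l => ?_⟩⟩
  have hp := hs_pos N l s
  have h1 := gram_near hp (N.nearR l s) (N.uR l s)
  rw [real_inner_self_eq_norm_sq, N.uR l s] at h1
  have h2 := hL (N.gap s l) (hsL l) l
  have h3 := (abs_le.1 (h1.trans h2)).1
  have h4 : (1 - min (η ^ 2) (1 / 2)) * hs (N.r l s) ≤ ‖op (N.r l s) (N.xR l s)‖ ^ 2 := by
    rw [← le_div_iff₀ hp]
    linarith
  have h5 : 0 < ‖op (N.r l s) (N.xR l s)‖ := by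
    have h6 : 0 < ‖op (N.r l s) (N.xR l s)‖ ^ 2 := by
      refine lt_of_lt_of_le (mul_pos ?_ hp) h4
      have := min_le_right (η ^ 2) (1 / 2 : ℝ)
      linarith
    rcases eq_or_lt_of_le (norm_nonneg (op (N.r l s) (N.xR l s))) with h7 | h7
    · rw [← h7] at h6
      norm_num at h6
    · exact h7
  refine ⟨?_, N.uR l s, hη.le, ?_, ?_⟩
  · rw [norm_smul, norm_inv, norm_norm, inv_mul_cancel₀ h5.ne']
  · refine le_trans (mul_le_mul_of_nonneg_right ?_ hp.le) h4
    have := min_le_left (η ^ 2) (1 / 2 : ℝ)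
    linarith
  · rw [smul_smul, mul_inv_cancel₀ h5.ne', one_smul]

/-- Orthogonal decomposition of a unit vector. -/
theorem exists_perp {V : Type} [NormedAddCommGroup V] [InnerProductSpace ℝ V] {x e : V} (hx : ‖x‖ = 1) (he : ‖e‖ = 1) :
    inner ℝ x e ^ 2 = 1 ∨ ∃ v : V, ‖v‖ = 1 ∧ inner ℝ e v = 0 ∧ 1 - inner ℝ x e ^ 2 = inner ℝ x v ^ 2 := by
  set z := x - inner ℝ x e • e with hz
  have h1 : inner ℝ e z = 0 := by
    rw [hz, inner_sub_right, inner_smul_right, real_inner_self_eq_norm_sq, he, real_inner_comm]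
    ring
  have h2 : ‖z‖ ^ 2 = 1 - inner ℝ x e ^ 2 := by
    rw [hz, norm_sub_sq_real, inner_smul_right, norm_smul, he, hx, mul_one, Real.norm_eq_abs, sq_abs]
    ring
  rcases eq_or_ne z 0 with h0 | h0
  · left
    rw [h0, norm_zero] at h2
    linarith
  · right
    have hzn : 0 < ‖z‖ := norm_pos_iff.2 h0
    refine ⟨‖z‖⁻¹ • z, ?_, ?_, ?_⟩
    · rw [norm_smul, norm_inv, norm_norm, inv_mul_cancel₀ hzn.ne']
    · rw [inner_smul_right, h1, mul_zero]
    · have h3 : inner ℝ x z = ‖z‖ ^ 2 := by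
        have h4 : x = z + inner ℝ x e • e := by
          rw [hz]
          abel
        conv_lhs => rw [h4]
        rw [inner_add_left, real_inner_self_eq_norm_sq, inner_smul_left, h1, mul_zero, add_zero]
      rw [inner_smul_right, h3, ← h2]
      field_simp

theorem geo_st {i j : Fin r} (hG : N.Geo i) (hij : i ≠ j) {C κ : ℝ} (hC : 0 ≤ C) (hκ : 0 < κ) (hκ1 : κ ≤ 1) :
    ∃ (L C1 R0 : ℝ) (m : ℕ), ∀ s : G, (∀ l, L ≤ N.gap s l) → ∃ e f : ∀ l, EuclideanSpace ℝ (Fin (N.n l)),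
      (∀ l, ‖e l‖ = 1) ∧ (∀ l, ‖f l‖ = 1) ∧ ∀ R, R0 ≤ R →
      (∀ g ∈ SA N i C κ R e, ∀ h ∈ SB N j C κ R f, R - C1 ≤ N.gap (g * s * h) i ∧ R - C1 ≤ N.gap (g * s * h) j) ∧
      ∀ (k : G) (T : Finset G), (∀ g ∈ T, g ∈ SA N i C κ R e ∧ s⁻¹ * g⁻¹ * k ∈ SB N j C κ R f) → T.card ≤ m := by
  classical
  have hC0 : 0 ≤ N.C0 := zero_le_one.trans N.one_le
  obtain ⟨LG, d, c, C', RR, hd, hc, hC', hgeo⟩ := hG C (κ / 2) hC (half_pos hκ)
  set η : ℝ := κ ^ 2 / 4 * min 1 (d / 2) with hη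
  have hm0 : 0 < min 1 (d / 2) := by positivity
  have hη0 : 0 < η := by positivity
  have hκ2 : κ ^ 2 ≤ κ := by nlinarith
  have hη1 : η ≤ κ ^ 2 / 4 := by
    have := min_le_left 1 (d / 2)
    rw [hη]
    nlinarith [sq_nonneg κ]
  have hη2 : η ≤ κ / 4 := by linarith
  set c3 : ℝ := κ ^ 2 / 4 with hc3
  have hc30 : 0 < c3 := by positivity
  have hc31 : c3 ≤ 1 := by linarith
  set D : ℝ := 2 * Real.log c3⁻¹ with hD
  have hD0 : 0 ≤ D := mul_nonneg zero_le_two (Real.log_nonneg ((one_le_inv₀ hc30).2 hc31))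
  have hQ := coQ_nonneg N
  set C2 : ℝ := 4 * N.C0 + coQ N * D with hC2
  have hC20 : 0 ≤ C2 := by positivity
  set c' : ℝ := min c 1 with hc'
  have hc'0 : 0 < c' := by positivity
  set D3 : ℝ := Real.log c'⁻¹ with hD3
  have hD30 : 0 ≤ D3 := Real.log_nonneg ((one_le_inv₀ hc'0).2 (min_le_right _ _))
  set C3 : ℝ := 3 * N.C0 + coQ N * D3 with hC3
  obtain ⟨L1, hL10, hL1⟩ := exists_cfg N hη0
  obtain ⟨L2, hL20, hL2⟩ := exists_small N (ε := min (κ ^ 2 / 2) (d / 2)) (by positivity)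
  set nn : ℕ := ⌈max (2 * C2 + C + C3) C'⌉₊ with hnn
  have hfin := N.fin nn
  refine ⟨max L1 (max LG L2 + C2), C2, max LG L2, RR.card + 2 * hfin.toFinset.card, fun s hsL => ?_⟩
  obtain ⟨e, f, hcfg⟩ := hL1 s fun l => (le_max_left _ _).trans (hsL l)
  refine ⟨e, f, fun l => (hcfg l).e1, fun l => (hcfg l).f1, fun R hR => ?_⟩
  -- three factors
  have three : ∀ g ∈ SA N i C κ R e, ∀ h ∈ SB N j C κ R f, ∀ l,
      |N.gap (g * s * h) l - N.gap g l - N.gap s l - N.gap h l| ≤ C2 := by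
    intro g hg h hh l
    refine gap_three N hD0 (fun m => ?_) l
    have hp := hs_pos N m
    refine log_three (hp _) (hp _) (hp _) (hp _) hc30 hc31 ?_ ?_
    · rw [map_mul, map_mul]
      exact (hcfg m).three hκ hκ1 hη1 (hg.2.2 m) (hh.2.2 m)
    · rw [map_mul, map_mul]
      exact (hs_mul_le _ _).trans (mul_le_mul_of_nonneg_right (hs_mul_le _ _) (hp _).le)
  -- two factors
  have two : ∀ h ∈ SB N j C κ R f, ∀ l, |N.gap (s * h) l - N.gap s l - N.gap h l| ≤ C2 := by
    intro h hh l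
    refine (gap_two N hD0 (fun m => ?_) l).trans (by linarith)
    have hp := hs_pos N m
    refine log_two (hp _) (hp _) (hp _) hc30 hc31 ?_ ?_
    · rw [map_mul]
      refine le_trans (mul_le_mul_of_nonneg_right ?_ (by positivity)) ((hcfg m).two hκ hκ1 hη2 (hh.2.2 m))
      linarith
    · rw [map_mul]
      exact hs_mul_le _ _
  refine ⟨fun g hg h hh => ?_, fun k T hT => ?_⟩
  · have h1 := (abs_le.1 (three g hg h hh i)).1
    have h2 := (abs_le.1 (three g hg h hh j)).1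
    have h3 := hg.2.1
    have h4 := hh.2.1
    have h5 := N.nonneg g j
    have h6 := N.nonneg h i
    have h7 := N.nonneg s i
    have h8 := N.nonneg s j
    constructor <;> linarith
  -- multiplicity
  rcases T.eq_empty_or_nonempty with rfl | ⟨g0, hg0⟩
  · simp
  have hSv : ∀ g ∈ SA N i C κ R e, g ∈ N.Sv i C (κ / 2) LG (e i) := by
    intro g hg
    refine ⟨hg.1, ((le_max_left _ _).trans hR).trans hg.2.1, ?_⟩
    have hp := hs_pos N i g
    have h1 := gram_near hp (N.nearR i g) (hcfg i).e1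
    have h2 := hL2 (N.gap g i) (((le_max_right _ _).trans hR).trans hg.2.1) i
    have h3 := (abs_le.1 (h1.trans (h2.trans (min_le_left _ _)))).2
    have h4 : κ ^ 2 ≤ ‖op (N.r i g) (e i)‖ ^ 2 / hs (N.r i g) := by
      rw [le_div_iff₀ hp]
      have h5 := pow_le_pow_left₀ (by positivity) (hg.2.2 i) 2
      rwa [mul_pow, Real.sq_sqrt hp.le] at h5
    have h6 : (κ / 2) ^ 2 ≤ |inner ℝ (N.xR i g) (e i)| ^ 2 := by
      rw [sq_abs]
      nlinarith [sq_nonneg κ]
    exact (sq_le_sq₀ (by positivity) (abs_nonneg _)).1 h6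
  have hSu : ∀ h ∈ SB N j C κ R f, s * h ∈ N.Su i LG d (e i) := by
    intro h hh
    have h1 := (abs_le.1 (two h hh i)).1
    have h2 := hsL i
    have h3 := le_max_right L1 (max LG L2 + C2)
    have h4 := N.nonneg h i
    have hgap : max LG L2 ≤ N.gap (s * h) i := by linarith
    refine ⟨(le_max_left _ _).trans hgap, ?_⟩
    rcases exists_perp (N.uL i (s * h)) (hcfg i).e1 with h5 | ⟨v, hv1, hv2, hv3⟩
    · rw [h5]
      linarith
    · have hp := hs_pos N i
      have hpt : 0 < hs (N.r i (s * h))ᵀ := by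
        rw [hs_tr]
        exact hp _
      have h6 := gram_near hpt (N.nearL i (s * h)) hv1
      have h7 := hL2 (N.gap (s * h) i) ((le_max_right _ _).trans hgap) i
      have h8 := (abs_le.1 (h6.trans (h7.trans (min_le_right _ _)))).1
      have h9 : ‖op (N.r i (s * h))ᵀ v‖ ≤ η * (√(hs (N.r i s)) * √(hs (N.r i h))) := by
        rw [map_mul]
        exact (hcfg i).left hv1 hv2
      have h10 : κ / 4 * (√(hs (N.r i s)) * √(hs (N.r i h))) ≤ √(hs (N.r i (s * h))) := by
        rw [map_mul]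
        exact (hcfg i).two hκ hκ1 hη2 (hh.2.2 i)
      have h11 : κ / 4 * ‖op (N.r i (s * h))ᵀ v‖ ≤ η * √(hs (N.r i (s * h))) := by
        calc κ / 4 * ‖op (N.r i (s * h))ᵀ v‖ ≤ κ / 4 * (η * (√(hs (N.r i s)) * √(hs (N.r i h)))) :=
              mul_le_mul_of_nonneg_left h9 (by positivity)
          _ = η * (κ / 4 * (√(hs (N.r i s)) * √(hs (N.r i h)))) := by ring
          _ ≤ _ := mul_le_mul_of_nonneg_left h10 hη0.le
      have h12 : ‖op (N.r i (s * h))ᵀ v‖ ^ 2 / hs (N.r i (s * h))ᵀ ≤ d / 2 := by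
        rw [hs_tr, div_le_iff₀ (hp _)]
        have h13 := pow_le_pow_left₀ (by positivity) h11 2
        rw [mul_pow, mul_pow, Real.sq_sqrt (hp _).le] at h13
        have h14 : η ^ 2 ≤ (κ / 4) ^ 2 * (d / 2) := by
          have e1 : η ^ 2 = (κ / 4) ^ 2 * (κ ^ 2 * min 1 (d / 2) ^ 2) := by
            rw [hη]
            ring
          rw [e1]
          refine mul_le_mul_of_nonneg_left ?_ (sq_nonneg _)
          have e2 : min 1 (d / 2) ^ 2 ≤ d / 2 := by
            have a1 := min_le_left 1 (d / 2)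
            have a2 := min_le_right 1 (d / 2)
            nlinarith
          have e3 : κ ^ 2 ≤ 1 := by linarith
          calc κ ^ 2 * min 1 (d / 2) ^ 2 ≤ 1 * min 1 (d / 2) ^ 2 := mul_le_mul_of_nonneg_right e3 (sq_nonneg _)
            _ ≤ d / 2 := by rw [one_mul]; exact e2
        have h15 : 0 < (κ / 4) ^ 2 := by positivity
        have h16 : (κ / 4) ^ 2 * ‖op (N.r i (s * h))ᵀ v‖ ^ 2 ≤ (κ / 4) ^ 2 * (d / 2 * hs (N.r i (s * h))) := by
          refine h13.trans ?_
          rw [← mul_assoc]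
          exact mul_le_mul_of_nonneg_right h14 (hp _).le
        exact le_of_mul_le_mul_left h16 h15
      have h17 : inner ℝ (N.xL i (s * h)) v ^ 2 ≤ d := by linarith
      linarith
  -- the gap `i`
  have hdiff : ∀ g ∈ T, N.gap g i ≤ N.gap k i - N.gap s i + C2 ∧ N.gap k i - N.gap s i - C - C2 ≤ N.gap g i := by
    intro g hg
    obtain ⟨h1, h2⟩ := hT g hg
    have h3 := three g h1 _ h2 i
    have e1 : g * s * (s⁻¹ * g⁻¹ * k) = k := by group
    rw [e1] at h3
    have h4 := h2.1 i hij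
    have h5 := N.nonneg (s⁻¹ * g⁻¹ * k) i
    rw [abs_le] at h3
    constructor <;> linarith [h3.1, h3.2]
  obtain ⟨R1, hR1, hR2, -, hR4, -⟩ := hgeo (e i) (hcfg i).e1
  have key : ∀ g ∈ T, ∀ g' ∈ T, ∀ t ∈ R1, g * t = g' → t ∈ hfin.toFinset := by
    intro g hg g' hg' t ht he
    have h1 := hSv g (hT g hg).1
    have h2 : ∀ m, |Real.log (hs (N.r m (g * t))) - Real.log (hs (N.r m g)) - Real.log (hs (N.r m t))| ≤ D3 := by
      intro m
      have hp := hs_pos N m
      have h3 := hR2 g h1 t ht m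
      have h4 : c' * (hs (N.r m g) * hs (N.r m t)) ≤ hs (N.r m (g * t)) :=
        le_trans (mul_le_mul_of_nonneg_right (min_le_left _ _) (mul_nonneg (hp _).le (hp _).le)) h3
      have h5 : hs (N.r m (g * t)) ≤ hs (N.r m g) * hs (N.r m t) := by
        rw [map_mul]
        exact hs_mul_le _ _
      have h6 := Real.log_le_log (mul_pos hc'0 (mul_pos (hp _) (hp _))) h4
      have h7 := Real.log_le_log (hp _) h5
      rw [Real.log_mul hc'0.ne' (mul_pos (hp _) (hp _)).ne', Real.log_mul (hp _).ne' (hp _).ne'] at h6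
      rw [Real.log_mul (hp _).ne' (hp _).ne'] at h7
      have h8 : D3 = -Real.log c' := Real.log_inv c'
      rw [abs_le]
      constructor <;> linarith
    have h9 := (abs_le.1 (gap_two N hD30 h2 i)).1
    rw [he] at h9
    have h10 := (hdiff g hg).2
    have h11 := (hdiff g' hg').1
    have h12 : N.gap t i ≤ 2 * C2 + C + C3 := by linarith
    rw [Set.Finite.mem_toFinset]
    intro l
    rcases eq_or_ne l i with rfl | hl
    · exact h12.trans ((le_max_left _ _).trans (Nat.le_ceil _))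
    · exact (hR4 t ht l hl).trans ((le_max_right _ _).trans (Nat.le_ceil _))
  have hsub : T ⊆ ((RR ∪ (hfin.toFinset ∪ hfin.toFinset.image (·⁻¹))).image fun t => g0 * t) := by
    intro g hg
    refine Finset.mem_image.2 ⟨g0⁻¹ * g, ?_, by group⟩
    have h1 := hR1 (g0⁻¹ * g) g0 (g0⁻¹ * k) (hSv g0 (hT g0 hg0).1) (by
      rw [mul_inv_cancel_left]
      exact hSv g (hT g hg).1) (by
      have h2 := hSu _ (hT g0 hg0).2
      have e1 : s * (s⁻¹ * g0⁻¹ * k) = g0⁻¹ * k := by group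
      rwa [e1] at h2) (by
      have h2 := hSu _ (hT g hg).2
      have e1 : s * (s⁻¹ * g⁻¹ * k) = (g0⁻¹ * g)⁻¹ * (g0⁻¹ * k) := by group
      rwa [e1] at h2)
    rcases h1 with h1 | h1 | h1
    · exact Finset.mem_union_right _ (Finset.mem_union_left _ (key g0 hg0 g hg _ h1 (by group)))
    · refine Finset.mem_union_right _ (Finset.mem_union_right _ (Finset.mem_image.2 ⟨_, key g hg g0 hg0 _ h1 (by group), inv_inv _⟩))
    · exact Finset.mem_union_left _ h1
  refine (Finset.card_le_card hsub).trans (Finset.card_image_le.trans ((Finset.card_union_le _ _).trans ?_))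
  refine Nat.add_le_add_left ((Finset.card_union_le _ _).trans ?_) _
  have h2 : (hfin.toFinset.image (·⁻¹)).card ≤ hfin.toFinset.card := Finset.card_image_le
  omega

end Pool.Agent.Helper3.FQ
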