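import Pool.Agent.Helper84.GVN.Factor

/-!
# Project FQ (MP_0f6f3f_an), layer ST: the product inequality

`jf f` is the function `x ↦ conj (f x⁻¹)`. For `u`, `w` in the commutant of the right regular representation and `s` in `G` the bilinear form `pp u w s η ζ` is `∑ η(g) ζ(h) conj (v(g s h))`,
`v = u λ_s w δ₁`. If the map `(g, h) ↦ g s h`, `S × S' → A`, has at most `m` preimages of every point, then `|pp η ζ|² ≤ m |η|² |ζ|² |1_A v|²` for `η`, `ζ` supported in `S`, `S'`.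
-/

set_option autoImplicit false

open ComplexConjugate Filter Topology

namespace Pool.Agent.Helper3.FQ

open Pool.Agent.Helper84.GVN

variable {G : Type} [Group G]

/-- The function `x ↦ conj (f x⁻¹)`. -/
noncomputable def jf (f : L2 G) : L2 G := cj (ivU G f)

theorem jf_apply (f : L2 G) (x : G) : jf f x = conj (f x⁻¹) := rfl

theorem jf_add (f g : L2 G) : jf (f + g) = jf f + jf g := by
  unfold jf
  rw [map_add, cj_add]

theorem jf_smul (c : ℂ) (f : L2 G) : jf (c • f) = conj c • jf f := by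
  unfold jf
  rw [map_smul, cj_smul]

theorem norm_jf (f : L2 G) : ‖jf f‖ = ‖f‖ := by
  unfold jf
  rw [norm_cj, LinearIsometryEquiv.norm_map]

theorem jf_dl (h : G) : jf (dl h) = dl h⁻¹ := by
  apply l2_ext
  intro x
  rw [jf_apply, dl_apply, dl_apply]
  by_cases hx : x = h⁻¹
  · subst hx
    simp
  · have h1 : ¬ x⁻¹ = h := fun h => hx (by rw [← h, inv_inv])
    simp [hx, h1]

theorem jf_sub (f g : L2 G) : jf (f - g) = jf f - jf g := by
  rw [sub_eq_add_neg, jf_add, show -g = (-1 : ℂ) • g by simp, jf_smul]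
  simp [sub_eq_add_neg]

/-- The bilinear form. -/
noncomputable def pp (u w : L2 G ≃ₗᵢ[ℂ] L2 G) (s : G) (η ζ : L2 G) : ℂ :=
  inner ℂ (u (lamU s (w (rhoU s (jf ζ))))) η

variable {u w : L2 G ≃ₗᵢ[ℂ] L2 G} {s : G}

theorem pp_add_left (η η' ζ : L2 G) : pp u w s (η + η') ζ = pp u w s η ζ + pp u w s η' ζ := by
  unfold pp
  rw [inner_add_right]

theorem pp_smul_left (c : ℂ) (η ζ : L2 G) : pp u w s (c • η) ζ = c * pp u w s η ζ := by
  unfold pp
  rw [inner_smul_right]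

theorem pp_add_right (η ζ ζ' : L2 G) : pp u w s η (ζ + ζ') = pp u w s η ζ + pp u w s η ζ' := by
  unfold pp
  rw [jf_add, map_add, map_add, map_add, map_add, inner_add_left]

theorem pp_smul_right (c : ℂ) (η ζ : L2 G) : pp u w s η (c • ζ) = c * pp u w s η ζ := by
  unfold pp
  rw [jf_smul, map_smul, map_smul, map_smul, map_smul, inner_smul_left, Complex.conj_conj]

theorem norm_pp_le (η ζ : L2 G) : ‖pp u w s η ζ‖ ≤ ‖η‖ * ‖ζ‖ := by
  unfold pp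
  refine (norm_inner_le_norm _ _).trans_eq ?_
  rw [LinearIsometryEquiv.norm_map, LinearIsometryEquiv.norm_map, LinearIsometryEquiv.norm_map,
    LinearIsometryEquiv.norm_map, norm_jf, mul_comm]

/-- The form as a continuous bilinear map. -/
noncomputable def ppB (u w : L2 G ≃ₗᵢ[ℂ] L2 G) (s : G) : L2 G →L[ℂ] L2 G →L[ℂ] ℂ :=
  LinearMap.mkContinuous₂ (LinearMap.mk₂ ℂ (pp u w s) (fun a b c => pp_add_left a b c)
    (fun a b c => pp_smul_left a b c) (fun a b c => pp_add_right a b c) fun a b c => pp_smul_right a b c) 1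
    fun a b => by
      rw [one_mul]
      exact norm_pp_le a b

theorem ppB_apply (η ζ : L2 G) : ppB u w s η ζ = pp u w s η ζ := rfl

theorem pp_dl (hu : CommR u) (hw : CommR w) (g h : G) :
    pp u w s (dl g) (dl h) = conj (u (lamU s (w (dl 1))) (g * s * h)) := by
  unfold pp
  rw [jf_dl, inner_dl_right]
  have h1 : rhoU s (dl h⁻¹ : L2 G) = rhoU (s * h) (dl 1) := by
    rw [rhoU_dl, rhoU_dl]
    congr 1
    group
  rw [h1, hw, lam_rho, hu, rhoU_apply, mul_assoc]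

open Classical in
theorem pp_fin (hu : CommR u) (hw : CommR w) {S S' A : Set G} {m : ℕ} (hA : ∀ g ∈ S, ∀ h ∈ S', g * s * h ∈ A)
    (hm : ∀ (k : G) (T : Finset G), (∀ g ∈ T, g ∈ S ∧ s⁻¹ * g⁻¹ * k ∈ S') → T.card ≤ m) {η ζ : L2 G}
    (hη : ∀ g, g ∉ S → η g = 0) (hζ : ∀ g, g ∉ S' → ζ g = 0) (T T' : Finset G) :
    ‖pp u w s (∑ g ∈ T, η g • dl g) (∑ h ∈ T', ζ h • dl h)‖ ^ 2 ≤
      m * (‖η‖ ^ 2 * ‖ζ‖ ^ 2) * ‖cproj A (u (lamU s (w (dl 1))))‖ ^ 2 := by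
  set v : L2 G := u (lamU s (w (dl 1))) with hv
  have h1 : pp u w s (∑ g ∈ T, η g • dl g) (∑ h ∈ T', ζ h • dl h) =
      ∑ g ∈ T, ∑ h ∈ T', η g * (ζ h * conj (v (g * s * h))) := by
    have e1 : ∀ ζ' : L2 G, pp u w s (∑ g ∈ T, η g • dl g) ζ' = ∑ g ∈ T, pp u w s (η g • dl g) ζ' := fun ζ' =>
      map_sum ((ppB u w s).flip ζ') _ _
    rw [e1]
    refine Finset.sum_congr rfl fun g _ => ?_
    have e2 : pp u w s (η g • dl g) (∑ h ∈ T', ζ h • dl h) = ∑ h ∈ T', pp u w s (η g • dl g) (ζ h • dl h) :=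
      map_sum (ppB u w s (η g • dl g)) _ _
    rw [e2]
    refine Finset.sum_congr rfl fun h _ => ?_
    rw [pp_smul_left, pp_smul_right, pp_dl hu hw]
  rw [h1, ← Finset.sum_product']
  set P : Finset (G × G) := T ×ˢ T' with hP
  have h2 : ∑ p ∈ P, η p.1 * (ζ p.2 * conj (v (p.1 * s * p.2))) =
      ∑ p ∈ P with p.1 ∈ S ∧ p.2 ∈ S', (η p.1 * ζ p.2) * conj (v (p.1 * s * p.2)) := by
    rw [Finset.sum_filter]
    refine Finset.sum_congr rfl fun p _ => ?_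
    by_cases h : p.1 ∈ S ∧ p.2 ∈ S'
    · rw [if_pos h]
      ring
    · rw [if_neg h]
      rcases not_and_or.1 h with h | h
      · rw [hη _ h, zero_mul]
      · rw [hζ _ h, zero_mul, mul_zero]
  rw [h2]
  set Q : Finset (G × G) := {p ∈ P | p.1 ∈ S ∧ p.2 ∈ S'} with hQ
  have h3 : ‖∑ p ∈ Q, (η p.1 * ζ p.2) * conj (v (p.1 * s * p.2))‖ ^ 2 ≤
      (∑ p ∈ Q, ‖η p.1 * ζ p.2‖ ^ 2) * ∑ p ∈ Q, ‖v (p.1 * s * p.2)‖ ^ 2 := by
    refine le_trans (pow_le_pow_left₀ (norm_nonneg _) (norm_sum_le _ _) 2) ?_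
    have h4 := Finset.sum_mul_sq_le_sq_mul_sq Q (fun p => ‖η p.1 * ζ p.2‖) fun p => ‖v (p.1 * s * p.2)‖
    refine le_trans (le_of_eq ?_) h4
    congr 1
    refine Finset.sum_congr rfl fun p _ => ?_
    rw [norm_mul, RCLike.norm_conj]
  refine h3.trans ?_
  have h5 : ∑ p ∈ Q, ‖η p.1 * ζ p.2‖ ^ 2 ≤ ‖η‖ ^ 2 * ‖ζ‖ ^ 2 := by
    refine le_trans (Finset.sum_le_sum_of_subset_of_nonneg (Finset.filter_subset _ _) fun _ _ _ => by positivity) ?_
    rw [hP, Finset.sum_product]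
    have h6 : ∑ x ∈ T, ∑ y ∈ T', ‖η (x, y).1 * ζ (x, y).2‖ ^ 2 = (∑ x ∈ T, ‖η x‖ ^ 2) * ∑ y ∈ T', ‖ζ y‖ ^ 2 := by
      rw [Finset.sum_mul_sum]
      refine Finset.sum_congr rfl fun x _ => Finset.sum_congr rfl fun y _ => ?_
      rw [norm_mul, mul_pow]
    rw [h6]
    exact mul_le_mul (sum_le_hasSum T (fun _ _ => by positivity) (hasSum_sq η))
      (sum_le_hasSum T' (fun _ _ => by positivity) (hasSum_sq ζ)) (by positivity) (by positivity)
  have h7 : ∑ p ∈ Q, ‖v (p.1 * s * p.2)‖ ^ 2 ≤ m * ‖cproj A v‖ ^ 2 := by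
    have h8 : ∑ p ∈ Q, ‖v (p.1 * s * p.2)‖ ^ 2 =
        ∑ k ∈ Q.image (fun p => p.1 * s * p.2), ∑ p ∈ Q with p.1 * s * p.2 = k, ‖v (p.1 * s * p.2)‖ ^ 2 :=
      (Finset.sum_fiberwise_of_maps_to (fun p hp => Finset.mem_image_of_mem _ hp) _).symm
    rw [h8]
    have h9 : ∀ k ∈ Q.image (fun p => p.1 * s * p.2),
        ∑ p ∈ Q with p.1 * s * p.2 = k, ‖v (p.1 * s * p.2)‖ ^ 2 ≤ m * ‖cproj A v k‖ ^ 2 := by
      intro k hk
      obtain ⟨p, hp, rfl⟩ := Finset.mem_image.1 hk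
      have hpQ := (Finset.mem_filter.1 hp).2
      have h10 : ∀ q ∈ ({q ∈ Q | q.1 * s * q.2 = p.1 * s * p.2} : Finset (G × G)),
          ‖v (q.1 * s * q.2)‖ ^ 2 = ‖cproj A v (p.1 * s * p.2)‖ ^ 2 := by
        intro q hq
        rw [(Finset.mem_filter.1 hq).2, cproj_apply, if_pos (hA _ hpQ.1 _ hpQ.2)]
      rw [Finset.sum_congr rfl h10, Finset.sum_const, nsmul_eq_mul]
      refine mul_le_mul_of_nonneg_right ?_ (by positivity)
      have h11 : ({q ∈ Q | q.1 * s * q.2 = p.1 * s * p.2} : Finset (G × G)).card =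
          (({q ∈ Q | q.1 * s * q.2 = p.1 * s * p.2} : Finset (G × G)).image Prod.fst).card := by
        refine (Finset.card_image_of_injOn ?_).symm
        intro a ha b hb hab
        have ha1 := (Finset.mem_filter.1 ha).2
        have hb1 := (Finset.mem_filter.1 hb).2
        change a.1 = b.1 at hab
        refine Prod.ext hab ?_
        rw [← hb1, hab] at ha1
        exact mul_left_cancel ha1
      rw [h11]
      refine Nat.cast_le.2 (hm (p.1 * s * p.2) _ ?_)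
      intro g hg
      obtain ⟨q, hq, rfl⟩ := Finset.mem_image.1 hg
      have hq1 := Finset.mem_filter.1 hq
      have hq2 := (Finset.mem_filter.1 hq1.1).2
      refine ⟨hq2.1, ?_⟩
      rw [← hq1.2]
      have : s⁻¹ * q.1⁻¹ * (q.1 * s * q.2) = q.2 := by group
      rw [this]
      exact hq2.2
    refine (Finset.sum_le_sum h9).trans ?_
    rw [← Finset.mul_sum]
    exact mul_le_mul_of_nonneg_left (sum_le_hasSum _ (fun _ _ => by positivity) (hasSum_sq (cproj A v)))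
      (Nat.cast_nonneg _)
  calc (∑ p ∈ Q, ‖η p.1 * ζ p.2‖ ^ 2) * ∑ p ∈ Q, ‖v (p.1 * s * p.2)‖ ^ 2
      ≤ (‖η‖ ^ 2 * ‖ζ‖ ^ 2) * (m * ‖cproj A v‖ ^ 2) := mul_le_mul h5 h7 (by positivity) (by positivity)
    _ = _ := by ring

/-- The product inequality. -/
theorem pp_le (hu : CommR u) (hw : CommR w) {S S' A : Set G} {m : ℕ} (hA : ∀ g ∈ S, ∀ h ∈ S', g * s * h ∈ A)
    (hm : ∀ (k : G) (T : Finset G), (∀ g ∈ T, g ∈ S ∧ s⁻¹ * g⁻¹ * k ∈ S') → T.card ≤ m) {η ζ : L2 G}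
    (hη : ∀ g, g ∉ S → η g = 0) (hζ : ∀ g, g ∉ S' → ζ g = 0) :
    ‖pp u w s η ζ‖ ^ 2 ≤ m * (‖η‖ ^ 2 * ‖ζ‖ ^ 2) * ‖cproj A (u (lamU s (w (dl 1))))‖ ^ 2 := by
  have h1 : Tendsto (fun T' : Finset G => ∑ h ∈ T', ζ h • (dl h : L2 G)) atTop (𝓝 ζ) := hasSum_dl ζ
  have h2 : Tendsto (fun T : Finset G => ∑ g ∈ T, η g • (dl g : L2 G)) atTop (𝓝 η) := hasSum_dl η
  have h3 : ∀ T : Finset G, ‖pp u w s (∑ g ∈ T, η g • dl g) ζ‖ ^ 2 ≤
      m * (‖η‖ ^ 2 * ‖ζ‖ ^ 2) * ‖cproj A (u (lamU s (w (dl 1))))‖ ^ 2 := by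
    intro T
    have h4 : Tendsto (fun T' : Finset G => ‖pp u w s (∑ g ∈ T, η g • dl g) (∑ h ∈ T', ζ h • dl h)‖ ^ 2) atTop
        (𝓝 (‖pp u w s (∑ g ∈ T, η g • dl g) ζ‖ ^ 2)) :=
      ((((ppB u w s (∑ g ∈ T, η g • dl g)).continuous.tendsto ζ).comp h1).norm).pow 2
    exact le_of_tendsto' h4 fun T' => pp_fin hu hw hA hm hη hζ T T'
  have h5 : Tendsto (fun T : Finset G => ‖pp u w s (∑ g ∈ T, η g • dl g) ζ‖ ^ 2) atTop
      (𝓝 (‖pp u w s η ζ‖ ^ 2)) :=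
    (((((ppB u w s).flip ζ).continuous.tendsto η).comp h2).norm).pow 2
  exact le_of_tendsto' h5 h3

end Pool.Agent.Helper3.FQ
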