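import Pool.Agent.Helper78.BM.Phi
import Pool.Agent.Helper3.FQ.Ineq

/-!
# Project FQ (MP_0f6f3f_an), layer ST: the means

`psi S u = u⁻¹ 1_S u δ₁`, `av S g = ∫ psi S (U_{a(g,x)}) dμ(x)`. If the cut off `1_S` of `vec b` is near the component of `vec b` in the stratum `R`, and `T* T = p` for `T = Tb μ a E R b`,
then the weak limit of `av S (b n)` is near `p δ₁`.
-/

set_option autoImplicit false
set_option linter.unusedSectionVars false

open MeasureTheory Filter Topology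

namespace Pool.Agent.Helper3.FQ

open Pool.Agent.Helper84 Pool.Agent.Helper84.GN Pool.Agent.Helper84.GN.S3 Pool.Agent.Helper84.GN.S3.X
open Pool.Agent.Helper84.NI Pool.Agent.Helper84.GVN Pool.Agent.Helper90.RK
open Pool.Agent.Helper96.RK Pool.Agent.Helper66.FR Pool.Agent.Helper84.FR Pool.Agent.Helper55.FR
open Pool.Agent.Helper78.BM

section Psi

variable {G : Type} [Group G]

theorem norm_cproj_le (S : Set G) (f : L2 G) : ‖cproj S f‖ ≤ ‖f‖ := by
  refine le_of_sq_le_sq ?_ (norm_nonneg _)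
  rw [norm_sq_eq, norm_sq_eq]
  refine Summable.tsum_le_tsum (fun x => ?_) (summable_sq _) (summable_sq _)
  rw [cproj_apply]
  split_ifs
  · exact le_refl _
  · simp

theorem cproj_adj (S : Set G) (f g : L2 G) : inner ℂ (cproj S f) g = inner ℂ f (cproj S g) := by
  refine (lv_inner (cproj S f) g).unique ?_
  have h := lv_inner f (cproj S g)
  convert h using 1
  funext x
  rw [cproj_apply, cproj_apply]
  split_ifs <;> simp

theorem cproj_out {S : Set G} (f : L2 G) {g : G} (hg : g ∉ S) : cproj S f g = 0 := by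
  rw [cproj_apply, if_neg hg]

/-- The vector `u⁻¹ 1_S u δ₁`. -/
noncomputable def psi (S : Set G) (u : L2 G ≃ₗᵢ[ℂ] L2 G) : L2 G := u⁻¹ (cproj S (cf u))

theorem norm_psi_le (S : Set G) (u : L2 G ≃ₗᵢ[ℂ] L2 G) : ‖psi S u‖ ≤ 1 := by
  unfold psi
  rw [LinearIsometryEquiv.norm_map]
  exact (norm_cproj_le S _).trans (norm_cf u).le

theorem inner_psi (S : Set G) (u : L2 G ≃ₗᵢ[ℂ] L2 G) (ζ : L2 G) : inner ℂ ζ (psi S u) = inner ℂ (u ζ) (cproj S (cf u)) := by
  unfold psi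
  rw [← u.inner_map_map ζ]
  congr 1
  exact u.apply_symm_apply _

end Psi

variable {G1 X G Λ : Type} [Group G1] [MeasurableSpace X] [MulAction G1 X] [MeasurableConstSMul G1 X]
  [Group G] [Group Λ] [Countable Λ] {μ : Measure X} [SMulInvariantMeasure G1 X μ] [IsProbabilityMeasure μ]
  {a : Cocy G1 X Λ} {E : Emb Λ G} {R : Reg G} {b : ℕ → G1}

/-- The mean of `psi S`. -/
noncomputable def av (μ : Measure X) (a : Cocy G1 X Λ) (E : Emb Λ G) (S : Set G) (g : G1) : L2 G :=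
  ∫ x, psi S (E.U (a.a g x)) ∂μ

theorem int_psi (S : Set G) (g : G1) : Integrable (fun x => psi S (E.U (a.a g x))) μ :=
  Integrable.of_bound (sm_mea (a.meas g) fun l => psi S (E.U l)).aestronglyMeasurable 1
    (ae_of_all _ fun _ => norm_psi_le _ _)

theorem norm_av_le (S : Set G) (g : G1) : ‖av μ a E S g‖ ≤ 1 := by
  unfold av
  refine (norm_integral_le_of_norm_le_const (C := 1) (ae_of_all _ fun _ => norm_psi_le _ _)).trans ?_
  simp

theorem inner_av (S : Set G) (g : G1) (ζ : L2 G) :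
    inner ℂ ζ (av μ a E S g) = ∫ x, inner ℂ ζ (psi S (E.U (a.a g x))) ∂μ := by
  unfold av
  exact (integral_inner (int_psi S g) ζ).symm

theorem inner_WW_zx (S : Set G) (g : G1) (ζ : L2 G) :
    inner ℂ (WW μ a E g (cst μ (ivU G ζ))) (cl μ (cproj S) (zx μ a E g)) = inner ℂ ζ (av μ a E S g) := by
  rw [inner_av, xl_inner]
  have h0 : ∀ᵐ x ∂μ, inner ℂ (WW μ a E g (cst μ (ivU G ζ)) x) (cl μ (cproj S) (zx μ a E g) x) =
      inner ℂ ζ (psi S (E.U (a.a g (g⁻¹ • x)))) := by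
    filter_upwards [WW_apply (μ := μ) a E g (cst μ (ivU G ζ)), cl_apply (μ := μ) (cproj S) (zx μ a E g),
      (measurePreserving_smul g⁻¹ μ).quasiMeasurePreserving.ae (cst_apply (μ := μ) (ivU G ζ)),
      zv_apply (μ := μ) (E := E) (mea_a (a := a) g g⁻¹)] with x h1 h2 h3 h4
    rw [h1, h2, h3, zx_eq, h4, ivU_ivU, inner_psi]
  rw [integral_congr_ae h0]
  exact (measurePreserving_smul g⁻¹ μ).integral_comp (measurableEmbedding_const_smul g⁻¹)
    fun x => inner ℂ ζ (psi S (E.U (a.a g x)))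

theorem tendsto_av (S : Set G) (ζ : L2 G) :
    Tendsto (fun n => inner ℂ ζ (av μ a E S (b n))) (hyperfilter ℕ : Filter ℕ)
      (𝓝 (inner ℂ (KK μ a E b (cst μ (ivU G ζ))) (UE.map μ (cproj S) (vec μ a E b)))) := by
  rw [vec_eq, UE.map_mk, ← UE.inner_val, val_KK, UE.val_mk]
  refine (UP.tendsto_inner _ _).congr fun n => ?_
  exact inner_WW_zx S (b n) ζ

/-- The weak limit of the means. -/
theorem tendsto_av_near [TopologicalSpace G1] [IsTopologicalGroup G1] {p : ℝ} (hp : ∀ φ, ContinuousLinearMap.adjoint (Tb μ a E R b) (Tb μ a E R b φ) = (p : ℂ) • φ)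
    {S : Set G} {ε : ℝ} (hS : ‖UE.map μ (cproj S) (vec μ a E b) - (XPpr R (vec μ a E b) : UE μ (L2 G))‖ ≤ ε) (ζ : L2 G) :
    ∃ c : ℂ, Tendsto (fun n => inner ℂ ζ (av μ a E S (b n))) (hyperfilter ℕ : Filter ℕ) (𝓝 c) ∧
      ‖c - p * inner ℂ ζ (dl 1)‖ ≤ ε * ‖ζ‖ := by
  refine ⟨_, tendsto_av S ζ, ?_⟩
  have h1 : inner ℂ (KK μ a E b (cst μ (ivU G ζ))) (XPpr R (vec μ a E b) : UE μ (L2 G)) = p * inner ℂ ζ (dl 1) := by
    have h2 : inner ℂ (XPpr R (vec μ a E b) : UE μ (L2 G)) (KK μ a E b (cst μ (ivU G ζ))) =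
        inner ℂ (XPpr R (vec μ a E b)) (XPpr R (KK μ a E b (cst μ (ivU G ζ)))) := inner_XPpr (R := R) _ _
    rw [← inner_conj_symm, h2, inner_conj_symm, ← Tb_eq, ← Tb_one, ← ContinuousLinearMap.adjoint_inner_right, hp,
      inner_smul_right, LinearIsometry.inner_map_map, inner_dl_right, inner_dl_right, ivU_apply, inv_one]
  rw [← h1, ← inner_sub_right]
  refine (norm_inner_le_norm _ _).trans ?_
  rw [mul_comm]
  refine mul_le_mul hS ?_ (norm_nonneg _) ((norm_nonneg _).trans hS)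
  rw [← UE.norm_val, val_KK]
  refine (UP.norm_mk_le (KS μ a E b (cst μ (ivU G ζ))) (C := ‖ζ‖) fun n => ?_)
  change ‖WW μ a E (b n) _‖ ≤ _
  rw [norm_WW, LinearIsometry.norm_map, LinearIsometryEquiv.norm_map]

end Pool.Agent.Helper3.FQ
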