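import Pool.Agent.Helper3.FQ.Mean

/-!
# Project FQ (MP_0f6f3f_an), layer ST: the product inequality for the means

`mm A s g h = ∫∫ |1_A (U_{a(g,x)} λ_s U_{a(h,y)} δ₁)|²`. `mm_ge`: `|⟪λ_s ρ_s (av S'⁻¹ h⁻¹), av S g⟫|² ≤ m (mm A s g h)` if `g s h ∈ A` for `g ∈ S`, `h ∈ S'`, with multiplicity at most `m`.
`inner_av_one`: `⟪λ_s ρ_s (av S'⁻¹ h⁻¹), δ₁⟫` is the mass of `h` on `S'`.
-/

set_option autoImplicit false
set_option linter.unusedSectionVars false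

open MeasureTheory Filter Topology
open scoped ComplexConjugate

namespace Pool.Agent.Helper3.FQ

open Pool.Agent.Helper84 Pool.Agent.Helper84.GN Pool.Agent.Helper84.GN.S3 Pool.Agent.Helper84.GN.S3.X
open Pool.Agent.Helper84.NI Pool.Agent.Helper84.GVN Pool.Agent.Helper90.RK
open Pool.Agent.Helper96.RK Pool.Agent.Helper66.FR Pool.Agent.Helper84.FR Pool.Agent.Helper55.FR
open Pool.Agent.Helper78.BM

section Pp

variable {G : Type} [Group G]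

theorem cproj_eq (A : Set G) : cproj A = ind ℂ A := by
  ext1 f
  refine l2_ext fun x => ?_
  rw [cproj_apply]
  exact (ind_apply A f x).symm

theorem inv_apply_eq (w : L2 G ≃ₗᵢ[ℂ] L2 G) (f g : L2 G) : inner ℂ (w f) g = inner ℂ f (w⁻¹ g) := by
  rw [← w.inner_map_map f (w⁻¹ g)]
  congr 1
  exact (w.apply_symm_apply g).symm

theorem CommR_inv {w : L2 G ≃ₗᵢ[ℂ] L2 G} (hw : CommR w) : CommR w⁻¹ := by
  intro k f
  apply w.injective
  rw [hw]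
  have h1 : ∀ g, w (w⁻¹ g) = g := fun g => w.apply_symm_apply g
  rw [h1, h1]

theorem jf_cf {w : L2 G ≃ₗᵢ[ℂ] L2 G} (hw : CommR w) : jf (cf w) = cf w⁻¹ := by
  refine l2_ext fun x => ?_
  rw [jf_apply]
  have h1 : (dl x⁻¹ : L2 G) = rhoU x (dl 1) := by rw [rhoU_dl, one_mul]
  have h2 : (dl x : L2 G) = rhoU x⁻¹ (dl 1) := by rw [rhoU_dl, one_mul, inv_inv]
  rw [← inner_dl_right x⁻¹ (cf w)]
  unfold cf
  rw [inv_apply_eq, h1, CommR_inv hw, ← inner_dl_left, h2]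
  have h3 := (rhoU x : L2 G ≃ₗᵢ[ℂ] L2 G).inner_map_map (rhoU x⁻¹ (dl 1)) (w⁻¹ (dl 1))
  rw [rhoU_symm] at h3
  exact h3

theorem jf_cproj (S : Set G) (f : L2 G) : jf (cproj S f) = cproj S⁻¹ (jf f) := by
  classical
  refine l2_ext fun x => ?_
  rw [jf_apply, cproj_apply, cproj_apply, jf_apply, Set.mem_inv]
  split_ifs
  · rfl
  · exact map_zero _

theorem jf_inner (f g : L2 G) : (inner ℂ (jf f) (jf g) : ℂ) = inner ℂ g f := by
  refine (lv_inner (jf f) (jf g)).unique ?_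
  have h := (Equiv.inv G).hasSum_iff.2 (lv_inner g f)
  convert h using 1
  funext x
  simp only [Function.comp_apply, Equiv.inv_apply, jf_apply, RCLike.inner_apply, Complex.conj_conj]
  exact mul_comm _ _

theorem cproj_proj (S : Set G) (f : L2 G) : cproj S (cproj S f) = cproj S f := by
  refine l2_ext fun x => ?_
  rw [cproj_apply, cproj_apply]
  split_ifs <;> rfl

theorem cproj_self (S : Set G) (f : L2 G) : (inner ℂ (cproj S f) f : ℂ) = ((‖cproj S f‖ ^ 2 : ℝ) : ℂ) := by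
  rw [← cproj_proj, cproj_adj, cproj_proj, inner_self_eq_norm_sq_to_K]
  push_cast
  rfl

/-- The operator `λ_s ρ_s`. -/
noncomputable def ad (s : G) : L2 G ≃ₗᵢ[ℂ] L2 G := lamU s * rhoU s

theorem ad_apply (s : G) (f : L2 G) : ad s f = lamU s (rhoU s f) := rfl

theorem ad_one (s : G) : ad s (dl 1 : L2 G) = dl 1 := by
  rw [ad_apply, rhoU_dl, lamU_dl]
  congr 1
  group

theorem pp_psi {u w : L2 G ≃ₗᵢ[ℂ] L2 G} (hw : CommR w) (s : G) (S S' : Set G) :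
    pp u w s (cproj S (cf u)) (cproj S' (cf w)) = inner ℂ (ad s (psi S'⁻¹ w⁻¹)) (psi S u) := by
  unfold pp
  rw [inv_apply_eq, jf_cproj, jf_cf hw, hw]
  rfl

theorem pp_psi_le {u w : L2 G ≃ₗᵢ[ℂ] L2 G} (hu : CommR u) (hw : CommR w) {s : G} {S S' A : Set G} {m : ℕ}
    (hA : ∀ g ∈ S, ∀ h ∈ S', g * s * h ∈ A)
    (hm : ∀ (k : G) (T : Finset G), (∀ g ∈ T, g ∈ S ∧ s⁻¹ * g⁻¹ * k ∈ S') → T.card ≤ m) :
    ‖(inner ℂ (ad s (psi S'⁻¹ w⁻¹)) (psi S u) : ℂ)‖ ^ 2 ≤ m * ‖ind ℂ A (u (lamU s (w (dl 1))))‖ ^ 2 := by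
  rw [← pp_psi hw]
  refine (pp_le hu hw hA hm (fun g hg => cproj_out _ hg) (fun g hg => cproj_out _ hg)).trans ?_
  rw [cproj_eq A]
  refine mul_le_mul_of_nonneg_right ?_ (sq_nonneg _)
  have h1 : ‖cproj S (cf u)‖ ^ 2 * ‖cproj S' (cf w)‖ ^ 2 ≤ 1 := by
    have e1 : ‖cproj S (cf u)‖ ≤ 1 := (norm_cproj_le S _).trans (norm_cf u).le
    have e2 : ‖cproj S' (cf w)‖ ≤ 1 := (norm_cproj_le S' _).trans (norm_cf w).le
    have e3 : ‖cproj S (cf u)‖ ^ 2 ≤ 1 := pow_le_one₀ (norm_nonneg _) e1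
    have e4 : ‖cproj S' (cf w)‖ ^ 2 ≤ 1 := pow_le_one₀ (norm_nonneg _) e2
    exact mul_le_one₀ e3 (sq_nonneg _) e4
  calc (m : ℝ) * (‖cproj S (cf u)‖ ^ 2 * ‖cproj S' (cf w)‖ ^ 2) ≤ m * 1 :=
        mul_le_mul_of_nonneg_left h1 (Nat.cast_nonneg m)
    _ = m := mul_one _

end Pp

variable {G1 X G Λ : Type} [Group G1] [MeasurableSpace X] [MulAction G1 X] [MeasurableConstSMul G1 X]
  [Group G] [Group Λ] [Countable Λ] {μ : Measure X} [SMulInvariantMeasure G1 X μ] [IsProbabilityMeasure μ]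
  {a : Cocy G1 X Λ} {E : Emb Λ G}

/-- The mass of the product on `A`. -/
noncomputable def mm (μ : Measure X) (a : Cocy G1 X Λ) (E : Emb Λ G) (A : Set G) (s : G) (g h : G1) : ℝ :=
  ∫ x, ∫ y, ‖ind ℂ A (E.U (a.a g x) (lamU s (E.U (a.a h y) (dl 1))))‖ ^ 2 ∂μ ∂μ

theorem mea_inv {c : X → Λ} (hc : Mea c) : Mea fun x => (c x)⁻¹ := fun l => by
  have h := hc l⁻¹
  convert h using 1
  ext x
  constructor
  · intro hx
    have hx' : (c x)⁻¹ = l := hx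
    show c x = l⁻¹
    rw [← hx', inv_inv]
  · intro hx
    have hx' : c x = l⁻¹ := hx
    show (c x)⁻¹ = l
    rw [hx', inv_inv]

theorem cocy_inv (g : G1) (x : X) : a.a g⁻¹ (g • x) = (a.a g x)⁻¹ := by
  have h := a.mul g⁻¹ g x
  rw [inv_mul_cancel, a.one] at h
  exact eq_inv_of_mul_eq_one_left h.symm

theorem av_inv (S : Set G) (h : G1) : av μ a E S h⁻¹ = ∫ y, psi S (E.U (a.a h y))⁻¹ ∂μ := by
  unfold av
  have h1 := (measurePreserving_smul h μ).integral_comp (measurableEmbedding_const_smul h)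
    fun x => psi S (E.U (a.a h⁻¹ x))
  rw [← h1]
  refine integral_congr_ae (ae_of_all _ fun y => ?_)
  simp only
  rw [cocy_inv, map_inv]

theorem int_psi_inv (S : Set G) (h : G1) : Integrable (fun y => psi S (E.U (a.a h y))⁻¹) μ :=
  Integrable.of_bound (sm_mea (a.meas h) fun l => psi S (E.U l)⁻¹).aestronglyMeasurable 1
    (ae_of_all _ fun _ => norm_psi_le _ _)

theorem norm_cl_zx (S : Set G) (h : G1) :
    ‖cl μ (ind ℂ S) (zx μ a E h)‖ ^ 2 = ∫ y, ‖ind ℂ S (cf (E.U (a.a h y)))‖ ^ 2 ∂μ := by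
  rw [xl_norm_sq]
  have h0 : ∀ᵐ x ∂μ, ‖cl μ (ind ℂ S) (zx μ a E h) x‖ ^ 2 = ‖ind ℂ S (cf (E.U (a.a h (h⁻¹ • x))))‖ ^ 2 := by
    filter_upwards [cl_apply (μ := μ) (ind ℂ S) (zx μ a E h), zv_apply (μ := μ) (E := E) (mea_a (a := a) h h⁻¹)] with x h1 h2
    rw [h1, zx_eq, h2]
  rw [integral_congr_ae h0]
  exact (measurePreserving_smul h⁻¹ μ).integral_comp (measurableEmbedding_const_smul h⁻¹)
    fun x => ‖ind ℂ S (cf (E.U (a.a h x)))‖ ^ 2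

theorem inner_av_one (s : G) (S : Set G) (h : G1) :
    (inner ℂ (ad s (av μ a E S⁻¹ h⁻¹)) (dl 1) : ℂ) = ((‖cl μ (ind ℂ S) (zx μ a E h)‖ ^ 2 : ℝ) : ℂ) := by
  have h1 : ∀ y : X, (inner ℂ (dl 1) (psi S⁻¹ (E.U (a.a h y))⁻¹) : ℂ) = ((‖ind ℂ S (cf (E.U (a.a h y)))‖ ^ 2 : ℝ) : ℂ) := by
    intro y
    have e1 : cf (E.U (a.a h y))⁻¹ = jf (cf (E.U (a.a h y))) := (jf_cf (E.comm _)).symm
    have e2 : (E.U (a.a h y))⁻¹ (dl 1) = cf (E.U (a.a h y))⁻¹ := rfl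
    rw [inner_psi, e2, e1, ← jf_cproj, jf_inner, cproj_self, ← cproj_eq]
  have h2 := (ad s : L2 G ≃ₗᵢ[ℂ] L2 G).inner_map_map (av μ a E S⁻¹ h⁻¹) (dl 1)
  rw [ad_one] at h2
  rw [h2, ← inner_conj_symm, av_inv, ← integral_inner (int_psi_inv S⁻¹ h) (dl 1), norm_cl_zx]
  have h3 : ∀ᵐ y ∂μ, (inner ℂ (dl 1) (psi S⁻¹ (E.U (a.a h y))⁻¹) : ℂ) = ((‖ind ℂ S (cf (E.U (a.a h y)))‖ ^ 2 : ℝ) : ℂ) :=
    ae_of_all _ h1
  rw [integral_congr_ae h3, integral_complex_ofReal, Complex.conj_ofReal]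

theorem sq_int_le {f : X → ℂ} (hfm : StronglyMeasurable f) (hf1 : ∀ x, ‖f x‖ ≤ 1) {B : X → ℝ} (hB : Integrable B μ)
    (hfB : ∀ x, ‖f x‖ ^ 2 ≤ B x) : ‖∫ x, f x ∂μ‖ ^ 2 ≤ ∫ x, B x ∂μ := by
  have hf : Integrable f μ := Integrable.of_bound hfm.aestronglyMeasurable 1 (ae_of_all _ hf1)
  have s1 : ‖∫ x, f x ∂μ‖ ^ 2 ≤ (∫ x, ‖f x‖ ∂μ) ^ 2 := pow_le_pow_left₀ (norm_nonneg _) (norm_integral_le_integral_norm _) 2
  have i1 : Integrable (fun x => ‖f x‖ ^ 2) μ := Integrable.of_bound (hfm.norm.pow 2).aestronglyMeasurable 1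
    (ae_of_all _ fun x => by
      rw [Real.norm_of_nonneg (sq_nonneg _)]
      exact pow_le_one₀ (norm_nonneg _) (hf1 x))
  have s2 : (∫ x, ‖f x‖ ∂μ) ^ 2 ≤ ∫ x, ‖f x‖ ^ 2 ∂μ := by
    have i2 : Integrable (fun x => ‖f x‖) μ := hf.norm
    set c := ∫ x, ‖f x‖ ∂μ with hc
    have s3 : 0 ≤ ∫ x, (‖f x‖ - c) ^ 2 ∂μ := integral_nonneg fun x => sq_nonneg _
    have s4 : ∫ x, (‖f x‖ - c) ^ 2 ∂μ = ∫ x, ‖f x‖ ^ 2 ∂μ - 2 * c * c + c ^ 2 := by
      have e : (fun x => (‖f x‖ - c) ^ 2) = fun x => (‖f x‖ ^ 2 - 2 * c * ‖f x‖) + c ^ 2 := by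
        funext x
        ring
      have i3 : Integrable (fun x => 2 * c * ‖f x‖) μ := i2.const_mul _
      rw [e, integral_add (f := fun x => ‖f x‖ ^ 2 - 2 * c * ‖f x‖) (i1.sub i3) (integrable_const _),
        integral_sub (f := fun x => ‖f x‖ ^ 2) i1 i3, integral_const_mul, integral_const]
      simp [← hc]
    rw [s4] at s3
    nlinarith
  exact s1.trans (s2.trans (integral_mono i1 hB hfB))

/-- **The product inequality for the means.** -/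
theorem mm_ge {s : G} {S S' A : Set G} {m : ℕ} (hA : ∀ g ∈ S, ∀ h ∈ S', g * s * h ∈ A)
    (hm : ∀ (k : G) (T : Finset G), (∀ g ∈ T, g ∈ S ∧ s⁻¹ * g⁻¹ * k ∈ S') → T.card ≤ m) (g h : G1) :
    ‖(inner ℂ (ad s (av μ a E S'⁻¹ h⁻¹)) (av μ a E S g) : ℂ)‖ ^ 2 ≤ m * mm μ a E A s g h := by
  let F : X → X → ℂ := fun x y => inner ℂ (ad s (psi S'⁻¹ (E.U (a.a h y))⁻¹)) (psi S (E.U (a.a g x)))
  let N : X → X → ℝ := fun x y => ‖ind ℂ A (E.U (a.a g x) (lamU s (E.U (a.a h y) (dl 1))))‖ ^ 2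
  have hFN : ∀ x y, ‖F x y‖ ^ 2 ≤ m * N x y := fun x y => pp_psi_le (E.comm _) (E.comm _) hA hm
  have hF1 : ∀ x y, ‖F x y‖ ≤ 1 := fun x y => by
    refine (norm_inner_le_norm _ _).trans ?_
    rw [LinearIsometryEquiv.norm_map]
    exact mul_le_one₀ (norm_psi_le _ _) (norm_nonneg _) (norm_psi_le _ _)
  have hN1 : ∀ x y, N x y ≤ 1 := fun x y => by
    have e1 : ‖ind ℂ A (E.U (a.a g x) (lamU s (E.U (a.a h y) (dl 1))))‖ ≤ 1 := by
      rw [← cproj_eq]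
      refine (norm_cproj_le _ _).trans ?_
      rw [LinearIsometryEquiv.norm_map, LinearIsometryEquiv.norm_map, LinearIsometryEquiv.norm_map, norm_dl]
    exact pow_le_one₀ (norm_nonneg _) e1
  have hN0 : ∀ x y, 0 ≤ N x y := fun x y => sq_nonneg _
  -- measurability in each variable
  have mF : ∀ x, StronglyMeasurable (F x) := fun x =>
    sm_mea (a.meas h) fun l => (inner ℂ (ad s (psi S'⁻¹ (E.U l)⁻¹)) (psi S (E.U (a.a g x))) : ℂ)
  have mN : ∀ x, StronglyMeasurable (N x) := fun x =>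
    sm_mea (a.meas h) fun l => ‖ind ℂ A (E.U (a.a g x) (lamU s (E.U l (dl 1))))‖ ^ 2
  have iF : ∀ x, Integrable (F x) μ := fun x => Integrable.of_bound (mF x).aestronglyMeasurable 1 (ae_of_all _ fun y => hF1 x y)
  have iN : ∀ x, Integrable (N x) μ := fun x => Integrable.of_bound (mN x).aestronglyMeasurable 1 (ae_of_all _ fun y => by
    rw [Real.norm_of_nonneg (hN0 x y)]
    exact hN1 x y)
  have mF2 : StronglyMeasurable fun x => ∫ y, F x y ∂μ :=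
    sm_mea (a.meas g) fun l => ∫ y, (inner ℂ (ad s (psi S'⁻¹ (E.U (a.a h y))⁻¹)) (psi S (E.U l)) : ℂ) ∂μ
  have mN2 : StronglyMeasurable fun x => ∫ y, N x y ∂μ :=
    sm_mea (a.meas g) fun l => ∫ y, ‖ind ℂ A (E.U l (lamU s (E.U (a.a h y) (dl 1))))‖ ^ 2 ∂μ
  have b1 : ∀ x, ‖∫ y, F x y ∂μ‖ ≤ 1 := fun x => by
    refine (norm_integral_le_of_norm_le_const (C := 1) (ae_of_all _ fun y => hF1 x y)).trans ?_
    simp
  have b2 : ∀ x, ‖∫ y, N x y ∂μ‖ ≤ 1 := fun x => by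
    refine (norm_integral_le_of_norm_le_const (C := 1) (ae_of_all _ fun y => ?_)).trans ?_
    · rw [Real.norm_of_nonneg (hN0 x y)]
      exact hN1 x y
    · simp
  have iF2 : Integrable (fun x => ∫ y, F x y ∂μ) μ := Integrable.of_bound mF2.aestronglyMeasurable 1 (ae_of_all _ b1)
  have iN2 : Integrable (fun x => ∫ y, N x y ∂μ) μ := Integrable.of_bound mN2.aestronglyMeasurable 1 (ae_of_all _ b2)
  -- the inner product as a double integral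
  have e1 : (inner ℂ (ad s (av μ a E S'⁻¹ h⁻¹)) (av μ a E S g) : ℂ) = ∫ x, ∫ y, F x y ∂μ ∂μ := by
    unfold av
    rw [← integral_inner (int_psi S g)]
    refine integral_congr_ae (ae_of_all _ fun x => ?_)
    simp only
    change (inner ℂ (ad s (av μ a E S'⁻¹ h⁻¹)) (psi S (E.U (a.a g x))) : ℂ) = _
    rw [av_inv]
    have h4 : ad s (∫ y, psi S'⁻¹ (E.U (a.a h y))⁻¹ ∂μ) = ∫ y, ad s (psi S'⁻¹ (E.U (a.a h y))⁻¹) ∂μ :=
      ((ad s : L2 G ≃ₗᵢ[ℂ] L2 G).toContinuousLinearEquiv.integral_comp_comm _).symm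
    have i4 : Integrable (fun y => ad s (psi S'⁻¹ (E.U (a.a h y))⁻¹)) μ :=
      Integrable.of_bound (sm_mea (a.meas h) fun l => ad s (psi S'⁻¹ (E.U l)⁻¹)).aestronglyMeasurable 1
        (ae_of_all _ fun _ => by
          rw [LinearIsometryEquiv.norm_map]
          exact norm_psi_le _ _)
    rw [h4, ← inner_conj_symm, ← integral_inner i4, ← integral_conj]
    refine integral_congr_ae (ae_of_all _ fun y => ?_)
    simp only
    exact inner_conj_symm _ _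
  rw [e1]
  have h5 : ∀ x, ‖∫ y, F x y ∂μ‖ ^ 2 ≤ m * ∫ y, N x y ∂μ := fun x => by
    have h6 := sq_int_le (mF x) (hF1 x) ((iN x).const_mul (m : ℝ)) (hFN x)
    rwa [integral_const_mul] at h6
  have h7 := sq_int_le mF2 b1 (iN2.const_mul (m : ℝ)) h5
  rw [integral_const_mul] at h7
  exact h7

end Pool.Agent.Helper3.FQ
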