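import Pool.Agent.Helper3.FQ.Win
import Pool.Agent.Helper3.FQ.Cell
import Pool.Agent.Helper3.FQ.Geo2

/-!
# Project FQ (MP_0f6f3f_an), layer ST: a single type

`single`: if a subsequence of the powers of `w` has a component of type `i` and another one a component of type `j` then `i = j`.
-/

set_option autoImplicit false
set_option linter.unusedSectionVars false

open MeasureTheory Filter Topology
open scoped ENNReal Matrix

namespace Pool.Agent.Helper3.FQ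

open Pool.Agent.Helper84 Pool.Agent.Helper84.GN.S3 Pool.Agent.Helper84.GN.S3.X
open Pool.Agent.Helper84.GN hiding toReg
open Pool.Agent.Helper84.NI Pool.Agent.Helper84.GVN Pool.Agent.Helper90.RK
open Pool.Agent.Helper96.RK Pool.Agent.Helper66.FR Pool.Agent.Helper84.FR Pool.Agent.Helper55.FR
open Pool.Agent.Helper43.FQ Pool.Agent.Helper9.FQ Pool.Agent.Helper43.TA
open Pool.Agent.Helper78.BM
open Pool.Agent.Helper20.TB (op hs hs_nonneg)
open Pool.Agent.Helper35.NI (ND)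

variable {G1 X G Λ : Type} [Group G1] [TopologicalSpace G1] [IsTopologicalGroup G1] [SecondCountableTopology G1] [LocallyCompactSpace G1]
  [MeasurableSpace G1] [BorelSpace G1] [MeasurableSpace X] [MulAction G1 X]
  [MeasurableConstSMul G1 X] [Group G] [Group Λ] [Countable Λ] {μ : Measure X} [SMulInvariantMeasure G1 X μ]
  [IsProbabilityMeasure μ] {a : Cocy G1 X Λ} {E : Emb Λ G} {w : G1} {r : ℕ} {A : Gp G r}

section Sets

variable (N : ND G (Fin r))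

/-- The set where the right data are not degenerate. -/
def TR (κ : ℝ) (e : ∀ l, EuclideanSpace ℝ (Fin (N.n l))) : Set G := {g | ∀ l, κ * √(hs (N.r l g)) ≤ ‖op (N.r l g) (e l)‖}

/-- The set where the left data are not degenerate. -/
def TL (κ : ℝ) (f : ∀ l, EuclideanSpace ℝ (Fin (N.n l))) : Set G := {h | ∀ l, κ * √(hs (N.r l h)) ≤ ‖op (N.r l h)ᵀ (f l)‖}

variable {N}

theorem SA_eq (hgap : ∀ g l, N.gap g l = A.gap g l) (i : Fin r) (C κ R : ℝ) (e : ∀ l, EuclideanSpace ℝ (Fin (N.n l))) :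
    SA N i C κ R e = cl1 A i C R ∩ TR N κ e := by
  ext g
  simp only [SA, cl1, TR, Set.mem_inter_iff, Set.mem_ofPred_eq, hgap, and_assoc]

theorem SB_eq (hgap : ∀ g l, N.gap g l = A.gap g l) (j : Fin r) (C κ R : ℝ) (f : ∀ l, EuclideanSpace ℝ (Fin (N.n l))) :
    SB N j C κ R f = cl1 A j C R ∩ TL N κ f := by
  ext g
  simp only [SB, cl1, TL, Set.mem_inter_iff, Set.mem_ofPred_eq, hgap, and_assoc]

end Sets

/-- **A single type.** -/
theorem single {N : ND G (Fin r)} (hgap : ∀ g l, N.gap g l = A.gap g l) (hreg : ∀ L : ℝ, ∃ s : G, ∀ l, L ≤ N.gap s l)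
    (h3 : Tendsto (fun g : G1 => μ {x | a.a g x ≠ 1}) (𝓝 1) (𝓝 0))
    (hF2 : ∀ l : Λ, Tendsto (fun g : G1 => μ {x | a.a g x = l}) (cocompact G1) (𝓝 0))
    (hFE : FullE E) (hD : DWin μ a E w)
    (hT : ∀ (l : Λ) (ε : ℝ), 0 < ε → ∃ R n0 : ℕ, ∀ n m : ℕ, n0 ≤ n → n0 ≤ m → th μ a E w (two A R) l n m ≤ ε)
    (hwc : Tendsto (fun n : ℕ => w ^ n) atTop (cocompact G1))
    (hno : ∀ β : ℝ, 0 < β → ∃ R : ℕ, ∀ n : ℕ, mass μ a E (two A R) (w ^ n) < β)
    (hErg : ∀ n : ℕ → ℕ, Tendsto n atTop atTop → ErgU μ a E (Ctr fun k => w ^ n k))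
    (hLr : ∀ ε : ℝ, 0 < ε → ∃ κ : ℝ, 0 < κ ∧ ∀ (n : ℕ) (l : Fin r) (e : EuclideanSpace ℝ (Fin (N.n l))), ‖e‖ = 1 →
      mass μ a E {g | ‖op (N.r l g) e‖ < κ * √(hs (N.r l g))} (w ^ n) ≤ ε)
    (hLl : ∀ ε : ℝ, 0 < ε → ∃ κ : ℝ, 0 < κ ∧ ∀ (n : ℕ) (l : Fin r) (e : EuclideanSpace ℝ (Fin (N.n l))), ‖e‖ = 1 →
      mass μ a E {g | ‖op (N.r l g)ᵀ e‖ < κ * √(hs (N.r l g))} (w ^ n) ≤ ε)
    {i j : Fin r} (hG : N.Geo i) {n m : ℕ → ℕ} (hn : Tendsto n atTop atTop) (hm : Tendsto m atTop atTop)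
    (hi : XPpr (A.reg (Finset.univ.erase i)) (vec μ a E fun k => w ^ n k) ≠ 0)
    (hj : XPpr (A.reg (Finset.univ.erase j)) (vec μ a E fun k => w ^ m k) ≠ 0) : i = j := by
  by_contra hij
  set Ri : Reg G := A.reg (Finset.univ.erase i) with hRi
  set Rj : Reg G := A.reg (Finset.univ.erase j) with hRj
  set P : ℝ := ‖XPpr Ri (vec μ a E fun k => w ^ n k)‖ with hP
  set P' : ℝ := ‖XPpr Rj (vec μ a E fun k => w ^ m k)‖ with hP'
  have hP0 : 0 < P := norm_pos_iff.2 hi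
  have hP'0 : 0 < P' := norm_pos_iff.2 hj
  set ε1 : ℝ := min (P' / 4) (P ^ 2 * P' ^ 2 / 16) with hε1
  have hε10 : 0 < ε1 := by positivity
  set β : ℝ := ε1 / 2 with hβ
  have hβ0 : 0 < β := by positivity
  -- the constants
  obtain ⟨C, hC⟩ := hno (β ^ 2) (by positivity)
  obtain ⟨κ1, hκ1, hL1⟩ := hLr (β ^ 2 / (r + 1)) (by positivity)
  obtain ⟨κ2, hκ2, hL2⟩ := hLl (β ^ 2 / (r + 1)) (by positivity)
  set κ : ℝ := min (min κ1 κ2) 1 with hκ
  have hκ0 : 0 < κ := by positivity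
  obtain ⟨L, C1, R0, mu, hgeo⟩ := geo_st N hG hij (C := C) (κ := κ) (Nat.cast_nonneg C) hκ0 (min_le_right _ _)
  obtain ⟨s, hsL⟩ := hreg L
  obtain ⟨e, f, he, hf, hst⟩ := hgeo s hsL
  set q0 : ℝ := P ^ 2 * P' ^ 2 / 8 with hq0
  have hq00 : 0 < q0 := by positivity
  obtain ⟨Rw, hRw⟩ := win_two hFE hD hT s (ε := q0 ^ 2 / (mu + 1) / 2) (by positivity)
  set R : ℝ := max R0 (Rw + C1 + 1) with hR
  obtain ⟨hprod, hmult⟩ := hst R (le_max_left _ _)
  -- non degeneracy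
  have hTR : ∀ k : ℕ, mass μ a E (TR N κ e)ᶜ (w ^ k) ≤ β ^ 2 := by
    intro k
    have h1 : (TR N κ e)ᶜ ⊆ ⋃ l ∈ (Finset.univ : Finset (Fin r)), {g | ‖op (N.r l g) (e l)‖ < κ1 * √(hs (N.r l g))} := by
      intro g hg
      have h2 : ∃ l, ‖op (N.r l g) (e l)‖ < κ * √(hs (N.r l g)) := by
        by_contra hcon
        push Not at hcon
        exact hg hcon
      obtain ⟨l, hl⟩ := h2
      refine Set.mem_iUnion₂.2 ⟨l, Finset.mem_univ _, hl.trans_le ?_⟩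
      exact mul_le_mul_of_nonneg_right ((min_le_left _ _).trans (min_le_left _ _)) (Real.sqrt_nonneg _)
    refine (mass_mono h1 _).trans ((mass_biUnion_le _ _ _).trans ?_)
    refine (Finset.sum_le_card_nsmul _ _ (β ^ 2 / (r + 1)) fun l _ => hL1 k l (e l) (he l)).trans ?_
    rw [Finset.card_univ, Fintype.card_fin, nsmul_eq_mul, mul_div_assoc', div_le_iff₀ (by positivity)]
    nlinarith [sq_nonneg β]
  have hTL : ∀ k : ℕ, mass μ a E (TL N κ f)ᶜ (w ^ k) ≤ β ^ 2 := by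
    intro k
    have h1 : (TL N κ f)ᶜ ⊆ ⋃ l ∈ (Finset.univ : Finset (Fin r)), {g | ‖op (N.r l g)ᵀ (f l)‖ < κ2 * √(hs (N.r l g))} := by
      intro g hg
      have h2 : ∃ l, ‖op (N.r l g)ᵀ (f l)‖ < κ * √(hs (N.r l g)) := by
        by_contra hcon
        push Not at hcon
        exact hg hcon
      obtain ⟨l, hl⟩ := h2
      refine Set.mem_iUnion₂.2 ⟨l, Finset.mem_univ _, hl.trans_le ?_⟩
      exact mul_le_mul_of_nonneg_right ((min_le_left _ _).trans (min_le_right _ _)) (Real.sqrt_nonneg _)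
    refine (mass_mono h1 _).trans ((mass_biUnion_le _ _ _).trans ?_)
    refine (Finset.sum_le_card_nsmul _ _ (β ^ 2 / (r + 1)) fun l _ => hL2 k l (f l) (hf l)).trans ?_
    rw [Finset.card_univ, Fintype.card_fin, nsmul_eq_mul, mul_div_assoc', div_le_iff₀ (by positivity)]
    nlinarith [sq_nonneg β]
  -- the sequences
  have hseq : ∀ (n : ℕ → ℕ), Tendsto n atTop atTop → ∀ d : ℕ, Tendsto (fun k => w ^ (n k + d)) atTop (cocompact G1) := by
    intro n hn d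
    exact hwc.comp (tendsto_atTop_mono (fun k => Nat.le_add_right (n k) d) hn)
  have hshift : ∀ (R : Reg G) (n : ℕ → ℕ) (d : ℕ), ‖XPpr R (vec μ a E fun k => w ^ (n k + d))‖ = ‖XPpr R (vec μ a E fun k => w ^ n k)‖ := by
    intro R n d
    have h1 : (fun k => w ^ (n k + d)) = fun k => w ^ d * w ^ n k := by
      funext k
      rw [add_comm, pow_add]
    rw [h1]
    exact norm_comp_shift R fun k => by rw [← pow_add, ← pow_add, add_comm]
  have htwo : ∀ (n : ℕ → ℕ) (d : ℕ), ‖UE.map μ (ind ℂ (two A C)) (vec μ a E fun k => w ^ (n k + d))‖ ≤ β := fun n d =>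
    norm_vec_le hβ0.le (Eventually.of_forall fun k => (hC _).le)
  -- the cut offs
  have hcutA : ∀ d : ℕ, ‖UE.map μ (ind ℂ (SA N i C κ R e)) (vec μ a E fun k => w ^ (n k + d)) -
      ((XPpr Ri (vec μ a E fun k => w ^ (n k + d)) : XUa μ Ri) : UE μ (L2 G))‖ ≤ ε1 := by
    intro d
    rw [SA_eq hgap]
    refine (cut_near A (comp_univ hF2 (hseq n hn d)) i C R (TR N κ e)).trans ?_
    have h1 := htwo n d
    have h2 : ‖UE.map μ (ind ℂ (TR N κ e)ᶜ) (vec μ a E fun k => w ^ (n k + d))‖ ≤ β :=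
      norm_vec_le hβ0.le (Eventually.of_forall fun k => hTR _)
    linarith
  have hcutB : ∀ d : ℕ, ‖UE.map μ (ind ℂ (SB N j C κ R f)) (vec μ a E fun k => w ^ (m k + d)) -
      ((XPpr Rj (vec μ a E fun k => w ^ (m k + d)) : XUa μ Rj) : UE μ (L2 G))‖ ≤ ε1 := by
    intro d
    rw [SB_eq hgap]
    refine (cut_near A (comp_univ hF2 (hseq m hm d)) j C R (TL N κ f)).trans ?_
    have h1 := htwo m d
    have h2 : ‖UE.map μ (ind ℂ (TL N κ f)ᶜ) (vec μ a E fun k => w ^ (m k + d))‖ ≤ β :=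
      norm_vec_le hβ0.le (Eventually.of_forall fun k => hTL _)
    linarith
  have hhyp : (hyperfilter ℕ : Filter ℕ) ≤ atTop := Nat.hyperfilter_le_atTop
  -- the right factor
  have hB : ∀ d : ℕ, ∀ᶠ k in (hyperfilter ℕ : Filter ℕ), P' ^ 2 / 4 ≤ mass μ a E (SB N j C κ R f) (w ^ (m k + d)) := by
    intro d
    have h1 := ms_tendsto (μ := μ) (a := a) (E := E) (SB N j C κ R f) fun k => w ^ (m k + d)
    have h2 : P' / 2 < ‖UE.map μ (ind ℂ (SB N j C κ R f)) (vec μ a E fun k => w ^ (m k + d))‖ := by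
      have h3 := hcutB d
      have h4 := norm_sub_norm_le ((XPpr Rj (vec μ a E fun k => w ^ (m k + d)) : XUa μ Rj) : UE μ (L2 G))
        (UE.map μ (ind ℂ (SB N j C κ R f)) (vec μ a E fun k => w ^ (m k + d)))
      rw [norm_sub_rev] at h4
      have h5 : ‖((XPpr Rj (vec μ a E fun k => w ^ (m k + d)) : XUa μ Rj) : UE μ (L2 G))‖ = P' := hshift Rj m d
      have h6 : ε1 ≤ P' / 4 := min_le_left _ _
      rw [h5] at h4
      linarith
    have h7 : P' ^ 2 / 4 < ‖UE.map μ (ind ℂ (SB N j C κ R f)) (vec μ a E fun k => w ^ (m k + d))‖ ^ 2 := by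
      have := pow_lt_pow_left₀ h2 (by positivity) two_ne_zero
      calc P' ^ 2 / 4 = (P' / 2) ^ 2 := by ring
        _ < _ := this
    filter_upwards [h1.eventually (lt_mem_nhds h7)] with k hk
    exact hk.le
  -- the left factor
  have hA : ∀ (h : G1) (d : ℕ), P' ^ 2 / 4 ≤ mass μ a E (SB N j C κ R f) h → ∀ᶠ k in (hyperfilter ℕ : Filter ℕ),
      q0 ≤ ‖(inner ℂ (ad s (av μ a E (SB N j C κ R f)⁻¹ h⁻¹)) (av μ a E (SA N i C κ R e) (w ^ (n k + d))) : ℂ)‖ := by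
    intro h d hh
    have h1 := exists_mass (R := Ri) (hErg (fun k => n k + d) (tendsto_atTop_mono (fun k => Nat.le_add_right (n k) d) hn)) h3
    rw [hshift Ri n d] at h1
    have h2 := hcutA d
    rw [← cproj_eq] at h2
    obtain ⟨c, hc1, hc2⟩ := tendsto_av_near (p := P ^ 2) h1 h2 (ad s (av μ a E (SB N j C κ R f)⁻¹ h⁻¹))
    have h4 : ‖ad s (av μ a E (SB N j C κ R f)⁻¹ h⁻¹)‖ ≤ 1 := by
      rw [LinearIsometryEquiv.norm_map]
      exact norm_av_le _ _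
    rw [inner_av_one] at hc2
    have h5 : ‖c - ((P ^ 2 : ℝ) : ℂ) * ((‖cl μ (ind ℂ (SB N j C κ R f)) (zx μ a E h)‖ ^ 2 : ℝ) : ℂ)‖ ≤ ε1 :=
      hc2.trans (mul_le_of_le_one_right hε10.le h4)
    have h6 : P ^ 2 * (P' ^ 2 / 4) - ε1 ≤ ‖c‖ := by
      have h7 := norm_sub_norm_le (((P ^ 2 : ℝ) : ℂ) * ((‖cl μ (ind ℂ (SB N j C κ R f)) (zx μ a E h)‖ ^ 2 : ℝ) : ℂ)) c
      rw [norm_sub_rev] at h7
      rw [norm_mul, Complex.norm_real, Complex.norm_real, Real.norm_of_nonneg (sq_nonneg P), Real.norm_of_nonneg (sq_nonneg _)] at h7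
      have h8 : P ^ 2 * (P' ^ 2 / 4) ≤ P ^ 2 * ‖cl μ (ind ℂ (SB N j C κ R f)) (zx μ a E h)‖ ^ 2 :=
        mul_le_mul_of_nonneg_left hh (sq_nonneg _)
      linarith
    have h9 : q0 < ‖c‖ := by
      have h10 : ε1 ≤ P ^ 2 * P' ^ 2 / 16 := min_le_right _ _
      have h11 : 0 < P ^ 2 * P' ^ 2 := by positivity
      rw [hq0]
      linarith
    filter_upwards [hc1.norm.eventually (lt_mem_nhds h9)] with k hk
    exact hk.le
  -- windows
  have hwin : ∀ K : ℕ, ∃ p q : ℕ, K ≤ p ∧ K ≤ q ∧ ∀ d d' : ℕ, d < K → d' < K →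
      q0 ≤ ‖(inner ℂ (ad s (av μ a E (SB N j C κ R f)⁻¹ (w ^ (q + d'))⁻¹)) (av μ a E (SA N i C κ R e) (w ^ (p + d))) : ℂ)‖ := by
    intro K
    have h1 : ∀ᶠ k in (hyperfilter ℕ : Filter ℕ), ∀ d' ∈ Finset.range K, P' ^ 2 / 4 ≤ mass μ a E (SB N j C κ R f) (w ^ (m k + d')) :=
      (Finset.eventually_all _).2 fun d' _ => hB d'
    have h2 : ∀ᶠ k in (hyperfilter ℕ : Filter ℕ), K ≤ m k := hhyp (hm.eventually_ge_atTop K)
    obtain ⟨k', hk1, hk2⟩ := (h1.and h2).exists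
    have h3 : ∀ᶠ k in (hyperfilter ℕ : Filter ℕ), ∀ d ∈ Finset.range K, ∀ d' ∈ Finset.range K,
        q0 ≤ ‖(inner ℂ (ad s (av μ a E (SB N j C κ R f)⁻¹ (w ^ (m k' + d'))⁻¹)) (av μ a E (SA N i C κ R e) (w ^ (n k + d))) : ℂ)‖ :=
      (Finset.eventually_all _).2 fun d _ => (Finset.eventually_all _).2 fun d' hd' => hA _ d (hk1 d' hd')
    have h4 : ∀ᶠ k in (hyperfilter ℕ : Filter ℕ), K ≤ n k := hhyp (hn.eventually_ge_atTop K)
    obtain ⟨k, hk3, hk4⟩ := (h3.and h4).exists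
    exact ⟨n k, m k', hk4, hk2, fun d d' hd hd' => hk3 d (Finset.mem_range.2 hd) d' (Finset.mem_range.2 hd')⟩
  choose p q hp hq hpq using hwin
  have hpt : Tendsto p atTop atTop := tendsto_atTop_mono hp tendsto_id
  have hqt : Tendsto q atTop atTop := tendsto_atTop_mono hq tendsto_id
  -- the product inequality
  have hSt : ∀ g ∈ SA N i C κ R e, ∀ h ∈ SB N j C κ R f, g * s * h ∈ two A Rw := by
    intro g hg h hh
    obtain ⟨h1, h2⟩ := hprod g hg h hh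
    rw [hgap] at h1 h2
    have h4 : (Rw : ℝ) + C1 + 1 ≤ R := le_max_right _ _
    exact ⟨i, j, hij, by linarith, by linarith⟩
  have hlow : ∀ K : ℕ, K ≠ 0 → q0 ^ 2 / (mu + 1) ≤ wa p q (Pool.Agent.Helper52.FQ.ms μ a E w (two A Rw) (GVN.dl s)) K := by
    intro K hK
    refine le_wa hK fun d d' hd hd' => ?_
    have h1 := mm_ge (μ := μ) (a := a) (E := E) hSt hmult (w ^ (p K + d)) (w ^ (q K + d'))
    have h2 := pow_le_pow_left₀ hq00.le (hpq K d d' hd hd') 2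
    rw [← mm_ms]
    rw [div_le_iff₀ (by positivity)]
    have h5 : 0 ≤ mm μ a E (two A Rw) s (w ^ (p K + d)) (w ^ (q K + d')) :=
      integral_nonneg fun _ => integral_nonneg fun _ => sq_nonneg _
    nlinarith
  obtain ⟨K, hK1, hK2⟩ := ((hRw p q hpt hqt).and (eventually_ne_atTop 0)).exists
  have h1 := hlow K hK2
  have h2 : 0 < q0 ^ 2 / (mu + 1 : ℝ) := by positivity
  linarith

end Pool.Agent.Helper3.FQ
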