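import Pool.Agent.Helper52.FQ.Int
import Pool.Agent.Helper9.FQ.U4
import Pool.Agent.Helper3.FQ.Prod

/-!
# Project FQ (MP_0f6f3f_an), layer ST: tightness for inserted elements

`th A l n m = ∫∫ |1_A U_{a(w^n, x) l a(w^m, z)} δ₁|² dz dx`. `th_two`: for every `l` and `ε` there are `R`, `n0` with `th (two A R) l n m ≤ ε` for all `n, m ≥ n0`.
-/

set_option autoImplicit false
set_option linter.unusedSectionVars false

open MeasureTheory Filter Topology
open scoped ENNReal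

namespace Pool.Agent.Helper3.FQ

open Pool.Agent.Helper84 Pool.Agent.Helper84.GN.S3 Pool.Agent.Helper84.GN.S3.X
open Pool.Agent.Helper84.GN hiding toReg
open Pool.Agent.Helper84.NI Pool.Agent.Helper84.GVN Pool.Agent.Helper90.RK
open Pool.Agent.Helper96.RK Pool.Agent.Helper66.FR Pool.Agent.Helper84.FR Pool.Agent.Helper55.FR
open Pool.Agent.Helper45.FQ (HC)
open Pool.Agent.Helper52.FQ (Unq fi fg fF jf_eq norm_fF_le int_fF meas_S meas_fib sigma_hm meas_fi)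
open Pool.Agent.Helper43.FQ Pool.Agent.Helper9.FQ

variable {G1 X G Λ : Type} [Group G1] [TopologicalSpace G1] [IsTopologicalGroup G1] [SecondCountableTopology G1] [LocallyCompactSpace G1]
  [MeasurableSpace G1] [BorelSpace G1] [MeasurableSpace X] [MulAction G1 X]
  [MeasurableConstSMul G1 X] [Group G] [Group Λ] [Countable Λ] {μ : Measure X} [SMulInvariantMeasure G1 X μ]
  [IsProbabilityMeasure μ] {a : Cocy G1 X Λ} {E : Emb Λ G} {w : G1} {j : Λ →* G1} {hm : Measure G1} {σ : X → G1}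

/-- The mass for an inserted element of the lattice. -/
noncomputable def th (μ : Measure X) (a : Cocy G1 X Λ) (E : Emb Λ G) (w : G1) (A : Set G) (l : Λ) (n m : ℕ) : ℝ :=
  ∫ x, ∫ z, ‖ind ℂ A (cf (E.U (a.a (w ^ n) x * l * a.a (w ^ m) z)))‖ ^ 2 ∂μ ∂μ

/-- The mass of an element, as a complex number. -/
noncomputable def qa (E : Emb Λ G) (A : Set G) (l : Λ) : ℂ := ((‖ind ℂ A (cf (E.U l))‖ ^ 2 : ℝ) : ℂ)

theorem norm_qa (A : Set G) (l : Λ) : ‖qa E A l‖ ≤ 1 := by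
  unfold qa
  rw [Complex.norm_real, Real.norm_eq_abs]
  exact abs_ind_cf A l

theorem th_jf (A : Set G) (l : Λ) (n m : ℕ) :
    Pool.Agent.Helper52.FQ.jf μ a (1 : Λ →* (ℂ ≃ₗᵢ[ℂ] ℂ)) 1 (qa E A) w l n m = (th μ a E w A l n m : ℂ) := by
  unfold Pool.Agent.Helper52.FQ.jf th
  have h1 : ∀ x, ∫ z, inner ℂ (1 : ℂ) ((1 : Λ →* (ℂ ≃ₗᵢ[ℂ] ℂ)) (a.a (w ^ m) z) (qa E A (a.a (w ^ n) x * l * a.a (w ^ m) z))) ∂μ =
      ((∫ z, ‖ind ℂ A (cf (E.U (a.a (w ^ n) x * l * a.a (w ^ m) z)))‖ ^ 2 ∂μ : ℝ) : ℂ) := by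
    intro x
    rw [← integral_complex_ofReal]
    refine integral_congr_ae (ae_of_all _ fun z => ?_)
    simp only [MonoidHom.one_apply, RCLike.inner_apply, map_one, mul_one]
    rfl
  rw [← integral_complex_ofReal]
  exact integral_congr_ae (ae_of_all _ h1)

theorem norm_fF_mass (A : Set G) (l : Λ) (n m : ℕ) (g : G1) :
    ‖fF μ a (1 : Λ →* (ℂ ≃ₗᵢ[ℂ] ℂ)) 1 (qa E A) w l n m g‖ ≤ mass μ a E A (w ^ n * g * w ^ m) := by
  have e0 : ∀ x : X, (w ^ n * g * w ^ m)⁻¹ • (w ^ n • x) = (w ^ m)⁻¹ • (g⁻¹ • x) := by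
    intro x
    rw [← mul_smul, ← mul_smul]
    congr 1
    group
  have h1 : mass μ a E A (w ^ n * g * w ^ m) = ∫ x, ‖ind ℂ A (cf (E.U (a.a (w ^ n * g * w ^ m) ((w ^ m)⁻¹ • (g⁻¹ • x)))))‖ ^ 2 ∂μ := by
    rw [mass_int']
    have h2 := (measurePreserving_smul (w ^ n) μ).integral_comp (measurableEmbedding_const_smul (w ^ n))
      fun x => ‖ind ℂ A (cf (E.U (a.a (w ^ n * g * w ^ m) ((w ^ n * g * w ^ m)⁻¹ • x))))‖ ^ 2
    rw [← h2]
    refine integral_congr_ae (ae_of_all _ fun x => ?_)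
    simp only
    rw [e0]
  rw [h1, fF]
  have hint : Integrable (fun x => ‖ind ℂ A (cf (E.U (a.a (w ^ n * g * w ^ m) ((w ^ m)⁻¹ • (g⁻¹ • x)))))‖ ^ 2) μ := by
    have h3 : StronglyMeasurable fun x => ‖ind ℂ A (cf (E.U (a.a (w ^ n * g * w ^ m) ((w ^ m)⁻¹ • (g⁻¹ • x)))))‖ ^ 2 :=
      (mass_sm (a := a) (fun l => ‖ind ℂ A (cf (E.U l))‖ ^ 2) (w ^ n * g * w ^ m)).comp_measurable
        ((measurable_const_smul (w ^ m)⁻¹).comp (measurable_const_smul g⁻¹))
    exact Integrable.of_bound h3.aestronglyMeasurable 1 (ae_of_all _ fun x => abs_ind_cf A _)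
  refine norm_integral_le_of_norm_le hint (ae_of_all _ fun x => ?_)
  unfold fg
  by_cases hx : a.a g (g⁻¹ • x) = l
  · rw [Set.indicator_of_mem (show (g, x) ∈ {p : G1 × X | a.a p.1 (p.1⁻¹ • p.2) = l} from hx)]
    have h4 : a.a (w ^ n * g * w ^ m) ((w ^ m)⁻¹ • (g⁻¹ • x)) = a.a (w ^ n) x * l * a.a (w ^ m) ((w ^ m)⁻¹ • (g⁻¹ • x)) := by
      rw [a.mul, a.mul, smul_inv_smul, smul_inv_smul, hx]
    rw [h4]
    refine le_of_eq ?_
    unfold fi
    simp only [MonoidHom.one_apply, RCLike.inner_apply, map_one, mul_one]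
    change ‖qa E A _‖ = _
    unfold qa
    rw [Complex.norm_real, Real.norm_of_nonneg (sq_nonneg _)]
  · rw [Set.indicator_of_notMem (show (g, x) ∉ {p : G1 × X | a.a p.1 (p.1⁻¹ • p.2) = l} from hx), norm_zero]
    exact sq_nonneg _

theorem int_B (h : HC μ a.a j hm σ) (l : Λ) : Integrable (fun g => (μ {x | a.a g (g⁻¹ • x) = l}).toReal) hm := by
  have := sigma_hm h
  have h5 : Integrable ({p : G1 × X | a.a p.1 (p.1⁻¹ • p.2) = l}.indicator fun _ => (1 : ℝ)) (hm.prod μ) := by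
    rw [integrable_indicator_iff (meas_fib h l)]
    refine integrableOn_const ?_
    rw [meas_S h l]
    exact ENNReal.one_ne_top
  refine h5.integral_prod_left.congr (ae_of_all _ fun g => ?_)
  have hml : MeasurableSet {x | a.a g (g⁻¹ • x) = l} := (measurable_const_smul g⁻¹) (a.meas g l)
  show ∫ x, {x | a.a g (g⁻¹ • x) = l}.indicator (fun _ => (1 : ℝ)) x ∂μ = _
  rw [integral_indicator hml, integral_const, smul_eq_mul, mul_one, measureReal_restrict_apply_univ, measureReal_def]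

/-- The limit theorem: masses which tend to zero for almost all `g`. -/
theorem th_tendsto (h : HC μ a.a j hm σ) (hU : Unq j σ) (l : Λ) {A : ℕ → Set G} {n m : ℕ → ℕ}
    (hg : ∀ᵐ g ∂hm, Tendsto (fun k => mass μ a E (A k) (w ^ n k * g * w ^ m k)) atTop (𝓝 0)) :
    Tendsto (fun k => th μ a E w (A k) l (n k) (m k)) atTop (𝓝 0) := by
  have := sigma_hm h
  have h1 : Tendsto (fun k => ∫ g, fF μ a (1 : Λ →* (ℂ ≃ₗᵢ[ℂ] ℂ)) 1 (qa E (A k)) w l (n k) (m k) g ∂hm) atTop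
      (𝓝 (∫ _g : G1, (0 : ℂ) ∂hm)) := by
    refine tendsto_integral_of_dominated_convergence (fun g => (μ {x | a.a g (g⁻¹ • x) = l}).toReal)
      (fun k => (int_fF h (norm_qa (E := E) (A k))).aestronglyMeasurable) (int_B h l) (fun k => ae_of_all _ fun g => ?_) ?_
    · refine (norm_fF_le (norm_qa (E := E) (A k)) g).trans (le_of_eq ?_)
      rw [norm_one, one_mul, one_mul]
    · filter_upwards [hg] with g hgg
      rw [tendsto_zero_iff_norm_tendsto_zero]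
      exact squeeze_zero (fun k => norm_nonneg _) (fun k => norm_fF_mass (A k) l (n k) (m k) g) hgg
  rw [integral_zero] at h1
  have h2 : ∀ k, ∫ g, fF μ a (1 : Λ →* (ℂ ≃ₗᵢ[ℂ] ℂ)) 1 (qa E (A k)) w l (n k) (m k) g ∂hm = (th μ a E w (A k) l (n k) (m k) : ℂ) :=
    fun k => by rw [jf_eq h hU (norm_qa (A k)), th_jf]
  simp only [h2] at h1
  exact (Complex.continuous_re.tendsto _).comp h1

theorem th_nonneg (A : Set G) (l : Λ) (n m : ℕ) : 0 ≤ th μ a E w A l n m :=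
  integral_nonneg fun _ => integral_nonneg fun _ => sq_nonneg _

variable {r : ℕ} {A : Gp G r}

/-- **Tightness for inserted elements.** -/
theorem th_two (h : HC μ a.a j hm σ) (hU : Unq j σ) (h3 : Tendsto (fun g : G1 => μ {x | a.a g x ≠ 1}) (𝓝 1) (𝓝 0))
    {F : Subgroup G1} (hF : ∀ β : ℝ, 0 < β → ∃ R : ℕ, ∀ f ∈ F, mass μ a E (two A R) f < β) (hw : w ∈ F)
    (hΩ : ∀ᵐ g ∂hm, ∃ p l q : G1, g = p * l * q ∧ Tendsto (fun n : ℕ => w ^ n * p * (w ^ n)⁻¹) atTop (𝓝 1) ∧ w * l = l * w ∧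
      Tendsto (fun n : ℕ => (w ^ n)⁻¹ * q * w ^ n) atTop (𝓝 1)) (l : Λ) {ε : ℝ} (hε : 0 < ε) :
    ∃ R n0 : ℕ, ∀ n m : ℕ, n0 ≤ n → n0 ≤ m → th μ a E w (two A R) l n m ≤ ε := by
  by_contra hcon
  push Not at hcon
  choose n m hn hmm hlt using fun k : ℕ => hcon k k
  have h4 := th_tendsto (E := E) (w := w) h hU l (A := fun k => two A k) (n := n) (m := m) (by
    filter_upwards [hΩ] with g hg
    obtain ⟨p, l', q, rfl, hp, hl, hq⟩ := hg
    rw [Metric.tendsto_atTop]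
    intro β hβ
    obtain ⟨R, n0, hR⟩ := two_cell (E := E) (A := A) h3 hF hw hp hl.symm hq hβ
    refine ⟨max R n0, fun k hk => ?_⟩
    rw [Real.dist_eq, sub_zero, abs_of_nonneg (mass_nonneg _ _)]
    refine (mass_mono (two_anti A ((le_max_left _ _).trans hk)) _).trans_lt ?_
    exact hR (n k) (m k) (((le_max_right _ _).trans hk).trans (hn k)) (((le_max_right _ _).trans hk).trans (hmm k)))
  obtain ⟨N, hN⟩ := Metric.tendsto_atTop.1 h4 ε hε
  have h5 := hN N le_rfl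
  rw [Real.dist_eq, sub_zero, abs_of_nonneg (th_nonneg _ _ _ _)] at h5
  exact absurd h5 (not_lt.2 (hlt N).le)

end Pool.Agent.Helper3.FQ
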