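import Pool.Agent.Helper3.FQ.Tt
import Pool.Agent.Helper52.FQ.Br

/-!
# Project FQ (MP_0f6f3f_an), layer ST: windows

`wa p q f N` is the average of `f n m` over `p N ≤ n < p N + N`, `q N ≤ m < q N + N`. `DWin`: the diagonality (layer D) for these windows. `win_two`: for every `s` and `ε` there is `R` such that for all windows which go to infinity the
averages of the masses of `U_{a(w^n,x)} λ_s U_{a(w^m,z)} δ₁` on `two A R` are finally at most `ε`.
-/

set_option autoImplicit false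
set_option linter.unusedSectionVars false

open MeasureTheory Filter Topology
open scoped ENNReal

namespace Pool.Agent.Helper3.FQ

open Pool.Agent.Helper84 Pool.Agent.Helper84.GN.S3 Pool.Agent.Helper84.GN.S3.X
open Pool.Agent.Helper84.GN hiding toReg
open Pool.Agent.Helper84.NI Pool.Agent.Helper84.GVN Pool.Agent.Helper90.RK
open Pool.Agent.Helper96.RK Pool.Agent.Helper66.FR Pool.Agent.Helper84.FR Pool.Agent.Helper55.FR
open Pool.Agent.Helper43.FQ Pool.Agent.Helper9.FQ
open Pool.Agent.Helper78.BM (FullE)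

section Wa

/-- The averages over windows. -/
noncomputable def wa (p q : ℕ → ℕ) (f : ℕ → ℕ → ℝ) (N : ℕ) : ℝ :=
  ((N : ℝ)⁻¹ ^ 2) * ∑ n ∈ Finset.range N, ∑ m ∈ Finset.range N, f (p N + n) (q N + m)

variable {p q : ℕ → ℕ} {f g : ℕ → ℕ → ℝ} {N : ℕ}

theorem wa_le {C : ℝ} (hC : 0 ≤ C) (h : ∀ n m, p N ≤ n → q N ≤ m → f n m ≤ C) : wa p q f N ≤ C := by
  rcases eq_or_ne N 0 with rfl | hN
  · simpa [wa] using hC
  have h0 : (0 : ℝ) < N := by exact_mod_cast Nat.pos_of_ne_zero hN
  have h1 : ∑ n ∈ Finset.range N, ∑ m ∈ Finset.range N, f (p N + n) (q N + m) ≤ N * (N * C) := by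
    refine (Finset.sum_le_card_nsmul _ _ (N * C) fun n _ => ?_).trans (by simp)
    exact (Finset.sum_le_card_nsmul _ _ C fun m _ => h _ _ (Nat.le_add_right _ _) (Nat.le_add_right _ _)).trans (by simp)
  calc wa p q f N ≤ (N : ℝ)⁻¹ ^ 2 * (N * (N * C)) := mul_le_mul_of_nonneg_left h1 (by positivity)
    _ = C := by field_simp

theorem le_wa {c : ℝ} (hN : N ≠ 0) (h : ∀ n m, n < N → m < N → c ≤ f (p N + n) (q N + m)) : c ≤ wa p q f N := by
  have h0 : (0 : ℝ) < N := by exact_mod_cast Nat.pos_of_ne_zero hN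
  have h1 : N * (N * c) ≤ ∑ n ∈ Finset.range N, ∑ m ∈ Finset.range N, f (p N + n) (q N + m) := by
    have h2 := Finset.card_nsmul_le_sum (Finset.range N) (fun n => ∑ m ∈ Finset.range N, f (p N + n) (q N + m)) (N * c) fun n hn => by
      have h3 := Finset.card_nsmul_le_sum (Finset.range N) (fun m => f (p N + n) (q N + m)) c fun m hm =>
        h n m (Finset.mem_range.1 hn) (Finset.mem_range.1 hm)
      simpa using h3
    simpa using h2
  calc c = (N : ℝ)⁻¹ ^ 2 * (N * (N * c)) := by field_simp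
    _ ≤ wa p q f N := mul_le_mul_of_nonneg_left h1 (by positivity)

theorem wa_nonneg (h : ∀ n m, 0 ≤ f n m) : 0 ≤ wa p q f N :=
  mul_nonneg (by positivity) (Finset.sum_nonneg fun _ _ => Finset.sum_nonneg fun _ _ => h _ _)

end Wa

variable {G1 X G Λ : Type} [Group G1] [TopologicalSpace G1] [IsTopologicalGroup G1] [SecondCountableTopology G1] [LocallyCompactSpace G1]
  [MeasurableSpace G1] [BorelSpace G1] [MeasurableSpace X] [MulAction G1 X]
  [MeasurableConstSMul G1 X] [Group G] [Group Λ] [Countable Λ] {μ : Measure X} [SMulInvariantMeasure G1 X μ]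
  [IsProbabilityMeasure μ] {a : Cocy G1 X Λ} {E : Emb Λ G} {w : G1} {r : ℕ} {A : Gp G r}

variable (μ a E w) in
/-- **Diagonality for windows.** -/
def DWin : Prop := ∀ (S : Set G) (s : G) (p q : ℕ → ℕ), Tendsto p atTop atTop → Tendsto q atTop atTop →
  Tendsto (fun N => wa p q (Pool.Agent.Helper52.FQ.ms μ a E w S (GVN.dl s)) N -
    ∑' l, ‖cf (E.U l) s‖ ^ 2 * wa p q (Pool.Agent.Helper52.FQ.ms μ a E w S (Pool.Agent.Helper52.FQ.uv E l)) N) atTop (𝓝 0)

theorem ms_th (S : Set G) (l : Λ) (n m : ℕ) :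
    Pool.Agent.Helper52.FQ.ms μ a E w S (Pool.Agent.Helper52.FQ.uv E l) n m = th μ a E w S l n m := by
  rw [Pool.Agent.Helper52.FQ.ms_uv]
  rfl

theorem mm_ms (S : Set G) (s : G) (n m : ℕ) :
    mm μ a E S s (w ^ n) (w ^ m) = Pool.Agent.Helper52.FQ.ms μ a E w S (GVN.dl s) n m := by
  unfold mm Pool.Agent.Helper52.FQ.ms Pool.Agent.Helper52.FQ.da
  simp only [Pool.Agent.Helper52.FQ.lr_dl]
  rfl

theorem hasSum_cf (hF : FullE E) (s : G) : HasSum (fun l => ‖cf (E.U l) s‖ ^ 2) 1 := by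
  have h := Pool.Agent.Helper52.FQ.hasSum_sq hF (GVN.dl s : L2 G)
  rw [norm_dl, one_pow] at h
  refine h.congr_fun fun l => ?_
  rw [inner_dl_right, RCLike.norm_conj]
  rfl

/-- **No mass on two large gaps for windows.** -/
theorem win_two (hF : FullE E) (hD : DWin μ a E w)
    (hT : ∀ (l : Λ) (ε : ℝ), 0 < ε → ∃ R n0 : ℕ, ∀ n m : ℕ, n0 ≤ n → n0 ≤ m → th μ a E w (two A R) l n m ≤ ε)
    (s : G) {ε : ℝ} (hε : 0 < ε) : ∃ R : ℕ, ∀ p q : ℕ → ℕ, Tendsto p atTop atTop → Tendsto q atTop atTop →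
      ∀ᶠ N in atTop, wa p q (Pool.Agent.Helper52.FQ.ms μ a E w (two A R) (GVN.dl s)) N ≤ ε := by
  classical
  have hs := hasSum_cf hF s
  -- a finite set of `l`
  obtain ⟨T, hTs⟩ := (Metric.tendsto_atTop.1 hs (ε / 4) (by positivity))
  have hT0 := hTs T le_rfl
  rw [Real.dist_eq] at hT0
  choose R n0 hR using fun l => hT l (ε / 4) (by positivity)
  refine ⟨T.sup R, fun p q hp hq => ?_⟩
  have h1 := (Metric.tendsto_atTop.1 (hD (two A (T.sup R)) s p q hp hq) (ε / 4) (by positivity))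
  obtain ⟨N1, hN1⟩ := h1
  filter_upwards [eventually_ge_atTop N1, hp.eventually_ge_atTop (T.sup n0), hq.eventually_ge_atTop (T.sup n0)] with N hN hpN hqN
  have h2 := hN1 N hN
  rw [Real.dist_eq, sub_zero] at h2
  set c : Λ → ℝ := fun l => ‖cf (E.U l) s‖ ^ 2 with hc
  set W : Λ → ℝ := fun l => wa p q (Pool.Agent.Helper52.FQ.ms μ a E w (two A (T.sup R)) (Pool.Agent.Helper52.FQ.uv E l)) N with hW
  have hc0 : ∀ l, 0 ≤ c l := fun l => sq_nonneg _
  have hW0 : ∀ l, 0 ≤ W l := fun l => wa_nonneg fun n m => Pool.Agent.Helper52.FQ.ms_nonneg _ _ n m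
  have hW1 : ∀ l, W l ≤ 1 := fun l => wa_le zero_le_one fun n m _ _ => by
    have h := Pool.Agent.Helper52.FQ.ms_le (μ := μ) (a := a) (E := E) (w := w) (two A (T.sup R)) (Pool.Agent.Helper52.FQ.uv E l) n m
    rwa [Pool.Agent.Helper52.FQ.norm_uv, one_pow] at h
  have hWT : ∀ l ∈ T, W l ≤ ε / 4 := fun l hl => wa_le (by positivity) fun n m hn hm => by
    rw [ms_th]
    have h3 : th μ a E w (two A (T.sup R)) l n m ≤ th μ a E w (two A (R l)) l n m := by
      rw [← ms_th, ← ms_th]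
      exact Pool.Agent.Helper52.FQ.ms_mono (two_anti A (Finset.le_sup hl)) _ n m
    refine h3.trans (hR l n m ?_ ?_)
    · exact (Finset.le_sup hl).trans (hpN.trans hn)
    · exact (Finset.le_sup hl).trans (hqN.trans hm)
  have hsum : ∑' l, c l * W l ≤ ε / 2 := by
    have hcs : Summable c := hs.summable
    have hcW : Summable fun l => c l * W l := Summable.of_nonneg_of_le (fun l => mul_nonneg (hc0 l) (hW0 l))
      (fun l => mul_le_of_le_one_right (hc0 l) (hW1 l)) hcs
    have h4 : ∀ l, c l * W l ≤ c l * (ε / 4) + (c l - if l ∈ T then c l else 0) := by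
      intro l
      by_cases hl : l ∈ T
      · rw [if_pos hl, sub_self, add_zero]
        exact mul_le_mul_of_nonneg_left (hWT l hl) (hc0 l)
      · rw [if_neg hl, sub_zero]
        have := mul_le_of_le_one_right (hc0 l) (hW1 l)
        have h5 := mul_nonneg (hc0 l) (show (0 : ℝ) ≤ ε / 4 by positivity)
        linarith
    have h6 : HasSum (fun l => if l ∈ T then c l else 0) (∑ l ∈ T, c l) := by
      have h7 : HasSum (fun l => if l ∈ T then c l else 0) (∑ l ∈ T, if l ∈ T then c l else 0) :=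
        hasSum_sum_of_ne_finset_zero fun l hl => if_neg hl
      rwa [Finset.sum_congr rfl fun l hl => if_pos hl] at h7
    have h8 : HasSum (fun l => c l * (ε / 4) + (c l - if l ∈ T then c l else 0)) (1 * (ε / 4) + (1 - ∑ l ∈ T, c l)) :=
      (hs.mul_right _).add (hs.sub h6)
    have h9 := hasSum_le h4 hcW.hasSum h8
    have h10 := (abs_lt.1 hT0).1
    linarith
  have h11 := (abs_lt.1 h2).2
  linarith

end Pool.Agent.Helper3.FQ
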